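import Mathlib

/-! The strict Avoider-Enforcer star game. -/

namespace Pool.Agent.X69.Star

/-- `EWin b bad t F A`: in the strict `(1 : b)` Avoider-Enforcer game, from the position in which
the elements of `F` are unclaimed, Avoider has claimed those of `A`, and Avoider is to move,
Enforcer has a strategy ensuring that Avoider's final set satisfies `bad`. A round consists of
Avoider claiming one unclaimed element `e` and then Enforcer claiming a set `C` of exactly `b`
unclaimed elements, or all of them if fewer than `b` are left; the game ends when no element is
unclaimed. The number `t` is an upper bound for the number of rounds. -/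
def EWin {X : Type} [DecidableEq X] (b : ℕ) (bad : Finset X → Prop) :
    ℕ → Finset X → Finset X → Prop
  | 0, _, A => bad A
  | t + 1, F, A => (F = ∅ ∧ bad A) ∨ (F ≠ ∅ ∧ ∀ e ∈ F, ∃ C, C ⊆ F.erase e ∧
      C.card = min b (F.erase e).card ∧ EWin b bad t (F.erase e \ C) (insert e A))

/-- The graph with edge set `A` has a vertex of degree at least `k`, that is, contains the star
with `k` edges. -/
def HasStar {V : Type} [DecidableEq V] (k : ℕ) (A : Finset (Sym2 V)) : Prop :=
  ∃ v : V, k ≤ (A.filter (fun e => v ∈ e)).card

/-- The edges of the complete graph on `n` vertices. -/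
def edges (n : ℕ) : Finset (Sym2 (Fin n)) := Finset.univ.filter (fun e => ¬ e.IsDiag)

/-- Enforcer wins the strict `(1 : b)` star game for the star with `k` edges on the complete graph
on `n` vertices (Avoider moves first). -/
def EnforcerWins (n k b : ℕ) : Prop := EWin b (HasStar k) (edges n).card (edges n) ∅

/-- The lower threshold bias: the largest integer such that Enforcer wins for every positive bias
up to it. -/
noncomputable def fMinus (n k : ℕ) : ℕ :=
  sSup {m : ℕ | ∀ b : ℕ, 1 ≤ b → b ≤ m → EnforcerWins n k b}

/-- The upper threshold bias: the smallest integer such that Avoider wins for every larger bias. -/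
noncomputable def fPlus (n k : ℕ) : ℕ :=
  sInf {m : ℕ | ∀ b : ℕ, 1 ≤ b → m < b → ¬ EnforcerWins n k b}

end Pool.Agent.X69.Star
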