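import Mathlib
import Pool.Agent.X69.Star.Defs

/-! Avoider's strategy: always claim an edge minimising the larger of the two degrees. -/

namespace Pool.Agent.X69.Star

variable {V : Type} [DecidableEq V]

/-- degree -/
def dg (A : Finset (Sym2 V)) (v : V) : ℕ := (A.filter (fun e => v ∈ e)).card

theorem dg_insert_of_notMem (A : Finset (Sym2 V)) (e : Sym2 V) (v : V) (hv : v ∉ e) :
    dg (insert e A) v = dg A v := by
  unfold dg
  rw [Finset.filter_insert, if_neg hv]

theorem dg_insert_le (A : Finset (Sym2 V)) (e : Sym2 V) (v : V) :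
    dg (insert e A) v ≤ dg A v + 1 := by
  unfold dg
  rw [Finset.filter_insert]
  split_ifs
  · exact Finset.card_insert_le _ _
  · omega

theorem dg_le_insert (A : Finset (Sym2 V)) (e : Sym2 V) (v : V) :
    dg A v ≤ dg (insert e A) v :=
  Finset.card_le_card (Finset.filter_subset_filter _ (Finset.subset_insert _ _))

theorem dg_mono {A B : Finset (Sym2 V)} (h : A ⊆ B) (v : V) : dg A v ≤ dg B v :=
  Finset.card_le_card (Finset.filter_subset_filter _ h)

theorem dg_insert_eq (A : Finset (Sym2 V)) (e : Sym2 V) (v : V) (hv : v ∈ e) (he : e ∉ A) :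
    dg (insert e A) v = dg A v + 1 := by
  unfold dg
  rw [Finset.filter_insert, if_pos hv, Finset.card_insert_of_notMem]
  intro h
  exact he (Finset.mem_filter.mp h).1

variable [Fintype V]

/-- vertices of degree at least `j` -/
def VV (A : Finset (Sym2 V)) (j : ℕ) : Finset V := Finset.univ.filter (fun v => j ≤ dg A v)

/-- level of an edge -/
def lev (A : Finset (Sym2 V)) (e : Sym2 V) : ℕ :=
  (Finset.univ.filter (fun v => v ∈ e)).sup (dg A)

theorem dg_le_lev (A : Finset (Sym2 V)) (e : Sym2 V) (v : V) (hv : v ∈ e) : dg A v ≤ lev A e :=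
  Finset.le_sup (f := dg A) (by simp [hv])

theorem exists_of_le_lev (A : Finset (Sym2 V)) (e : Sym2 V) (j : ℕ) (h : j ≤ lev A e) :
    ∃ v ∈ e, j ≤ dg A v := by
  have hne : (Finset.univ.filter (fun v => v ∈ e)).Nonempty := by
    induction e with
    | _ u v => exact ⟨u, by simp⟩
  obtain ⟨v, hv, hv2⟩ := Finset.exists_mem_eq_sup _ hne (dg A)
  refine ⟨v, by simpa using hv, ?_⟩
  unfold lev at h
  rw [hv2] at h
  exact h

theorem card_through (F : Finset (Sym2 V)) (v : V) :
    (F.filter (fun e => v ∈ e)).card ≤ Fintype.card V := by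
  have hsub : F.filter (fun e => v ∈ e) ⊆ Finset.univ.image (fun w => s(v, w)) := by
    intro e he
    rw [Finset.mem_filter] at he
    obtain ⟨w, hw⟩ := he.2
    rw [Finset.mem_image]
    exact ⟨w, Finset.mem_univ _, hw.symm⟩
  calc (F.filter (fun e => v ∈ e)).card ≤ (Finset.univ.image (fun w => s(v, w))).card :=
        Finset.card_le_card hsub
    _ ≤ (Finset.univ : Finset V).card := Finset.card_image_le
    _ = Fintype.card V := Finset.card_univ

theorem card_touch (F : Finset (Sym2 V)) (U : Finset V) (h : ∀ e ∈ F, ∃ v ∈ U, v ∈ e) :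
    F.card ≤ U.card * Fintype.card V := by
  have hsub : F ⊆ U.biUnion (fun v => F.filter (fun e => v ∈ e)) := by
    intro e he
    obtain ⟨v, hv, hve⟩ := h e he
    rw [Finset.mem_biUnion]
    exact ⟨v, hv, Finset.mem_filter.mpr ⟨he, hve⟩⟩
  calc F.card ≤ _ := Finset.card_le_card hsub
    _ ≤ U.card * Fintype.card V := Finset.card_biUnion_le_card_mul _ _ _
        (fun v _ => card_through F v)

/-- number of Avoider moves left -/
def rds (b : ℕ) (m : ℕ) : ℕ := (m + b) / (b + 1)

/-- the bounds: `LL b n j` bounds the number of moves of level at least `j` -/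
def LL (b n : ℕ) : ℕ → ℕ
  | 0 => rds b (n * n)
  | j + 1 => rds b (2 * LL b n j * n)

theorem rds_mono (b : ℕ) {m m' : ℕ} (h : m ≤ m') : rds b m ≤ rds b m' :=
  Nat.div_le_div_right (by omega)

/-- main invariant: `VV A (j+1)` and the future moves of level `≥ j` -/
def Inv (b : ℕ) (F A : Finset (Sym2 V)) : Prop :=
  ∀ j, (VV A (j + 1)).card + 2 * min (rds b F.card) (LL b (Fintype.card V) j) ≤
    2 * LL b (Fintype.card V) j

theorem VV_insert_high (A : Finset (Sym2 V)) (e : Sym2 V) (j : ℕ) (h : lev A e + 1 < j) :
    VV (insert e A) j = VV A j := by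
  ext v
  simp only [VV, Finset.mem_filter, Finset.mem_univ, true_and]
  by_cases hv : v ∈ e
  · have h1 := dg_le_lev A e v hv
    have h2 := dg_insert_le A e v
    have h3 := dg_le_insert A e v
    constructor <;> intro h4 <;> omega
  · rw [dg_insert_of_notMem A e v hv]

theorem card_endpoints (e : Sym2 V) : (Finset.univ.filter (fun v => v ∈ e)).card ≤ 2 := by
  induction e with
  | _ u v =>
    have : Finset.univ.filter (fun w => w ∈ s(u, v)) = {u, v} := by
      ext w; simp
    rw [this]
    exact Finset.card_le_two

theorem VV_insert_le (A : Finset (Sym2 V)) (e : Sym2 V) (j : ℕ) :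
    (VV (insert e A) j).card ≤ (VV A j).card + 2 := by
  have hsub : VV (insert e A) j ⊆ VV A j ∪ Finset.univ.filter (fun v => v ∈ e) := by
    intro v hv
    simp only [VV, Finset.mem_filter, Finset.mem_univ, true_and, Finset.mem_union] at hv ⊢
    by_cases hve : v ∈ e
    · exact Or.inr hve
    · left; rwa [dg_insert_of_notMem A e v hve] at hv
  calc (VV (insert e A) j).card ≤ _ := Finset.card_le_card hsub
    _ ≤ _ := Finset.card_union_le _ _
    _ ≤ _ := Nat.add_le_add_left (card_endpoints e) _

theorem rds_round (b m : ℕ) (hm : 1 ≤ m) :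
    rds b (m - 1 - min b (m - 1)) + 1 = rds b m := by
  unfold rds
  rcases Nat.lt_or_ge (m - 1) b with h | h
  · rw [min_eq_right (by omega)]
    have e1 : m - 1 - (m - 1) + b = b := by omega
    rw [e1, Nat.div_eq_of_lt (by omega)]
    symm
    rw [Nat.div_eq_iff (by omega)]
    constructor <;> omega
  · rw [min_eq_left h]
    have : m + b = (m - 1 - b + b) + (b + 1) := by omega
    rw [this, Nat.add_div_right _ (by omega)]

theorem inv_step (b : ℕ) (F A : Finset (Sym2 V)) (e : Sym2 V) (he : e ∈ F)
    (hmin : ∀ e' ∈ F, lev A e ≤ lev A e') (hI : Inv b F A) (F' : Finset (Sym2 V))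
    (hF' : F'.card = F.card - 1 - min b (F.card - 1)) : Inv b F' (insert e A) := by
  intro j
  have hpos : 1 ≤ F.card := Finset.card_pos.mpr ⟨e, he⟩
  have hr := rds_round b F.card hpos
  rw [← hF'] at hr
  have hj := hI j
  by_cases hlev : lev A e + 1 < j + 1
  · rw [VV_insert_high A e (j + 1) hlev]
    have : min (rds b F'.card) (LL b (Fintype.card V) j) ≤
        min (rds b F.card) (LL b (Fintype.card V) j) := by omega
    omega
  · have h1 := VV_insert_le A e (j + 1)
    have h2 : F.card ≤ (VV A j).card * Fintype.card V := by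
      apply card_touch
      intro e' he'
      obtain ⟨v, hv1, hv2⟩ := exists_of_le_lev A e' j (by have := hmin e' he'; omega)
      exact ⟨v, by simp [VV, hv2], hv1⟩
    have h3 : rds b F.card ≤ LL b (Fintype.card V) j := by
      cases j with
      | zero =>
        simp only [LL]
        apply rds_mono
        refine h2.trans (Nat.mul_le_mul_right _ ?_)
        exact Finset.card_le_univ _
      | succ j =>
        simp only [LL]
        apply rds_mono
        refine h2.trans (Nat.mul_le_mul_right _ ?_)
        have := hI j
        omega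
    omega

theorem avoider_main (b k r : ℕ) (hr1 : 1 ≤ r) (hr2 : r ≤ b + 1) (hk : 2 ≤ k)
    (hcond : LL b (Fintype.card V) (k - 2) ≤ 1 ∨
      2 * LL b (Fintype.card V) (k - 2) * Fintype.card V < r) :
    ∀ (t : ℕ) (F A : Finset (Sym2 V)), (F = ∅ ∨ ∃ m, F.card = m * (b + 1) + r) →
      Inv b F A → (∀ v, dg A v ≤ k - 1) → F.card ≤ t → ¬ EWin b (HasStar k) t F A := by
  intro t
  have nobad : ∀ A : Finset (Sym2 V), (∀ v, dg A v ≤ k - 1) → ¬ HasStar k A := by
    rintro A hA ⟨v, hv⟩
    have := hA v
    unfold dg at this
    omega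
  induction t with
  | zero =>
    intro F A _ _ hA _ h
    exact nobad A hA h
  | succ t ih =>
    intro F A hF hI hA hFt h
    rcases h with ⟨_, h⟩ | ⟨hne, h⟩
    · exact nobad A hA h
    · obtain ⟨m, hm⟩ : ∃ m, F.card = m * (b + 1) + r := by
        rcases hF with h' | h'
        · exact absurd h' hne
        · exact h'
      have hne' : F.Nonempty := Finset.nonempty_iff_ne_empty.mpr hne
      obtain ⟨e, he, hmin⟩ := Finset.exists_min_image F (lev A) hne'
      obtain ⟨C, hC1, hC2, hW⟩ := h e he
      have hpos : 1 ≤ F.card := Finset.card_pos.mpr hne'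
      have hFe : (F.erase e).card = F.card - 1 := Finset.card_erase_of_mem he
      have hcard : (F.erase e \ C).card = F.card - 1 - min b (F.card - 1) := by
        rw [Finset.card_sdiff_of_subset hC1, hC2, hFe]
      have hI' := inv_step b F A e he hmin hI (F.erase e \ C) hcard
      -- the level of e is at most k - 2
      have hlev : lev A e ≤ k - 2 := by
        by_contra hcon
        push Not at hcon
        have h2 : F.card ≤ (VV A (k - 1)).card * Fintype.card V := by
          apply card_touch
          intro e' he'
          obtain ⟨v, hv1, hv2⟩ := exists_of_le_lev A e' (k - 1)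
            (by have := hmin e' he'; omega)
          exact ⟨v, Finset.mem_filter.mpr ⟨Finset.mem_univ _, hv2⟩, hv1⟩
        have h3 := hI (k - 2)
        have e1 : k - 2 + 1 = k - 1 := by omega
        rw [e1] at h3
        have h4 : 1 ≤ rds b F.card := by
          unfold rds
          rw [Nat.le_div_iff_mul_le (by omega)]
          omega
        rcases hcond with hc | hc
        · have h5 : (VV A (k - 1)).card = 0 := by
            rcases Nat.lt_or_ge 0 (LL b (Fintype.card V) (k - 2)) with h6 | h6
            · have : min (rds b F.card) (LL b (Fintype.card V) (k - 2)) = 1 := by omega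
              omega
            · omega
          rw [h5] at h2
          omega
        · have h5 : (VV A (k - 1)).card ≤ 2 * LL b (Fintype.card V) (k - 2) := by omega
          have h6 := Nat.mul_le_mul_right (Fintype.card V) h5
          have h7 : r ≤ F.card := by rw [hm]; omega
          omega
      refine ih (F.erase e \ C) (insert e A) ?_ hI' ?_ (by omega) hW
      · rcases Nat.eq_zero_or_pos m with h0 | h0
        · left
          rw [h0] at hm
          rw [← Finset.card_eq_zero, hcard]
          omega
        · right
          obtain ⟨m', rfl⟩ : ∃ m', m = m' + 1 := ⟨m - 1, by omega⟩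
          refine ⟨m', ?_⟩
          rw [hcard, hm]
          have : (m' + 1) * (b + 1) = m' * (b + 1) + (b + 1) := by ring
          rw [this, min_eq_left (by omega)]
          omega
      · intro v
        by_cases hv : v ∈ e
        · have h1 := dg_insert_le A e v
          have h2 := dg_le_lev A e v hv
          omega
        · rw [dg_insert_of_notMem A e v hv]
          exact hA v

end Pool.Agent.X69.Star
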