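import Mathlib
import Pool.Agent.X69.Star.Defs
import Pool.Agent.X69.Star.Avoider

/-! Enforcer's strategy in the star game. -/

namespace Pool.Agent.X69.Star

theorem ewin_of_bad {X : Type} [DecidableEq X] (b : ℕ) (bad : Finset X → Prop)
    (hb : ∀ A B, A ⊆ B → bad A → bad B) : ∀ (t : ℕ) (F A : Finset X), bad A →
    EWin b bad t F A := by
  intro t
  induction t with
  | zero => intro F A h; exact h
  | succ t ih =>
    intro F A h
    by_cases hF : F = ∅
    · exact Or.inl ⟨hF, h⟩
    · refine Or.inr ⟨hF, fun e _ => ?_⟩
      obtain ⟨C, hC1, hC2⟩ := Finset.exists_subset_card_eq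
        (show min b (F.erase e).card ≤ (F.erase e).card from min_le_right _ _)
      exact ⟨C, hC1, hC2, ih _ _ (hb A _ (Finset.subset_insert _ _) h)⟩

/-- making a move: it suffices to choose what remains. -/
theorem ewin_step {X : Type} [DecidableEq X] (b : ℕ) (bad : Finset X → Prop) (t : ℕ)
    (F A : Finset X) (hF : F ≠ ∅)
    (h : ∀ e ∈ F, ∃ G, G ⊆ F.erase e ∧ G.card = (F.erase e).card - b ∧
      EWin b bad t G (insert e A)) : EWin b bad (t + 1) F A := by
  refine Or.inr ⟨hF, fun e he => ?_⟩
  obtain ⟨G, h1, h2, h3⟩ := h e he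
  refine ⟨F.erase e \ G, Finset.sdiff_subset, ?_, ?_⟩
  · rw [Finset.card_sdiff_of_subset h1, h2]
    omega
  · rw [Finset.sdiff_sdiff_eq_self h1]
    exact h3

variable {V : Type} [DecidableEq V]

theorem hasStar_mono (k : ℕ) (A B : Finset (Sym2 V)) (h : A ⊆ B) (hA : HasStar k A) :
    HasStar k B := by
  obtain ⟨v, hv⟩ := hA
  exact ⟨v, hv.trans (dg_mono h v)⟩

theorem final_stage (b k r : ℕ) (hr1 : 1 ≤ r) (hr2 : r ≤ b + 1) : ∀ (t : ℕ)
    (F A S : Finset (Sym2 V)), (∃ m, F.card = m * (b + 1) + r) → S ⊆ F → S.card = r →
    (∀ e ∈ S, ∀ A', A ⊆ A' → e ∉ A' → HasStar k (insert e A')) → Disjoint F A →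
    F.card ≤ t → EWin b (HasStar k) t F A := by
  intro t
  induction t with
  | zero =>
    intro F A S hF hSF hS _ _ hFt
    exfalso
    have := Finset.card_le_card hSF
    omega
  | succ t ih =>
    intro F A S ⟨m, hm⟩ hSF hS hfat hd hFt
    apply ewin_step
    · rintro rfl
      have := Finset.card_le_card hSF
      simp only [Finset.card_empty] at this
      omega
    · intro e he
      have heA : e ∉ A := Finset.disjoint_left.mp hd he
      have hFe : (F.erase e).card = F.card - 1 := Finset.card_erase_of_mem he
      by_cases heS : e ∈ S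
      · obtain ⟨G, hG1, hG2⟩ := Finset.exists_subset_card_eq
          (show (F.erase e).card - b ≤ (F.erase e).card by omega)
        exact ⟨G, hG1, hG2, ewin_of_bad b _ (hasStar_mono k) _ _ _
          (hfat e heS A (Finset.Subset.refl _) heA)⟩
      · have hSe : S ⊆ F.erase e := by
          intro x hx
          exact Finset.mem_erase.mpr ⟨fun h => heS (h ▸ hx), hSF hx⟩
        have h1 := Finset.card_le_card hSe
        have hm1 : 1 ≤ m := by
          by_contra h
          have : m = 0 := by omega
          rw [this] at hm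
          omega
        obtain ⟨m', rfl⟩ : ∃ m', m = m' + 1 := ⟨m - 1, by omega⟩
        have h2 : (m' + 1) * (b + 1) = m' * (b + 1) + (b + 1) := by ring
        have h3 : (F.erase e).card - b = m' * (b + 1) + r := by omega
        obtain ⟨G, hSG, hGF, hG⟩ := Finset.exists_subsuperset_card_eq hSe
          (show S.card ≤ (F.erase e).card - b by omega) (by omega)
        refine ⟨G, hGF, hG, ih G (insert e A) S ⟨m', by omega⟩ hSG hS ?_ ?_ (by omega)⟩
        · intro e' he' A' hA' heA'
          exact hfat e' he' A' ((Finset.subset_insert _ _).trans hA') heA'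
        · rw [Finset.disjoint_insert_right]
          refine ⟨fun h => ?_, Finset.disjoint_of_subset_left
            (hGF.trans (Finset.erase_subset _ _)) hd⟩
          exact (Finset.mem_erase.mp (hGF h)).1 rfl

theorem stage (b k r : ℕ) (S Q A0 : Finset (Sym2 V)) (hQS : Q ⊆ S)
    (hnext : ∀ (t : ℕ) (F A : Finset (Sym2 V)), (F = ∅ ∨ ∃ m, F.card = m * (b + 1) + r) →
      A0 ⊆ A → Disjoint F A → Q ⊆ F ∪ A →
      ((S \ Q) \ A0).card ≤ (F ∩ (S \ Q)).card + (b + 1) * ((A \ A0) ∩ S).card + b →
      (F \ Q).card ≤ b → F.card ≤ t → EWin b (HasStar k) t F A) :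
    ∀ (t : ℕ) (F A : Finset (Sym2 V)), (F = ∅ ∨ ∃ m, F.card = m * (b + 1) + r) →
      r ≤ b + 1 →
      A0 ⊆ A → Disjoint F A → Q ⊆ F ∪ A →
      ((S \ Q) \ A0).card ≤ (F ∩ (S \ Q)).card + (b + 1) * ((A \ A0) ∩ S).card + b →
      ((F \ S).Nonempty → ((S \ Q) \ A0).card ≤ (F ∩ (S \ Q)).card + ((A \ A0) ∩ S).card) →
      F.card ≤ t → EWin b (HasStar k) t F A := by
  intro t
  induction t with
  | zero =>
    intro F A hF _ hA0 hd hQ hI2 _ hFt
    refine hnext 0 F A hF hA0 hd hQ hI2 ?_ hFt
    exact (Finset.card_le_card Finset.sdiff_subset).trans (by omega)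
  | succ t ih =>
    intro F A hF hr hA0 hd hQ hI2 hI1 hFt
    by_cases hend : (F \ Q).card ≤ b
    · exact hnext (t + 1) F A hF hA0 hd hQ hI2 hend hFt
    · push Not at hend
      have hne : F ≠ ∅ := by
        rintro rfl
        simp at hend
      obtain ⟨m, hm⟩ : ∃ m, F.card = m * (b + 1) + r := by
        rcases hF with h | h
        · exact absurd h hne
        · exact h
      apply ewin_step _ _ _ _ _ hne
      intro e he
      have heA : e ∉ A := Finset.disjoint_left.mp hd he
      have heA0 : e ∉ A0 := fun h => heA (hA0 h)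
      have hFe : (F.erase e).card = F.card - 1 := Finset.card_erase_of_mem he
      have hFpos : 1 ≤ F.card := Finset.card_pos.mpr ⟨e, he⟩
      -- sizes
      have hsz : (F.erase e \ Q).card + 1 ≥ (F \ Q).card := by
        have : F \ Q ⊆ insert e (F.erase e \ Q) := by
          intro x hx
          rw [Finset.mem_sdiff] at hx
          by_cases hxe : x = e
          · exact Finset.mem_insert.mpr (Or.inl hxe)
          · exact Finset.mem_insert.mpr (Or.inr (Finset.mem_sdiff.mpr
              ⟨Finset.mem_erase.mpr ⟨hxe, hx.1⟩, hx.2⟩))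
        exact (Finset.card_le_card this).trans (Finset.card_insert_le _ _)
      have hsplitQ : (F.erase e ∩ Q).card + (F.erase e \ Q).card = (F.erase e).card :=
        Finset.card_inter_add_card_sdiff _ _
      -- counts of S-edges of Avoider
      have hcntS : e ∈ S → ((insert e A \ A0) ∩ S).card = ((A \ A0) ∩ S).card + 1 := by
        intro heS
        have : (insert e A \ A0) ∩ S = insert e ((A \ A0) ∩ S) := by
          ext x
          simp only [Finset.mem_inter, Finset.mem_sdiff, Finset.mem_insert]
          by_cases hxe : x = e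
          · subst hxe; simp [heS, heA0]
          · simp [hxe]
        rw [this, Finset.card_insert_of_notMem]
        intro h
        rw [Finset.mem_inter, Finset.mem_sdiff] at h
        exact heA h.1.1
      have hcntN : e ∉ S → ((insert e A \ A0) ∩ S).card = ((A \ A0) ∩ S).card := by
        intro heS
        congr 1
        ext x
        simp only [Finset.mem_inter, Finset.mem_sdiff, Finset.mem_insert]
        by_cases hxe : x = e
        · subst hxe; simp [heS]
        · simp [hxe]
      have hT1 : (F ∩ (S \ Q)).card ≤ (F.erase e ∩ (S \ Q)).card + 1 := by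
        have : F ∩ (S \ Q) ⊆ insert e (F.erase e ∩ (S \ Q)) := by
          intro x hx
          rw [Finset.mem_inter] at hx
          by_cases hxe : x = e
          · exact Finset.mem_insert.mpr (Or.inl hxe)
          · exact Finset.mem_insert.mpr (Or.inr (Finset.mem_inter.mpr
              ⟨Finset.mem_erase.mpr ⟨hxe, hx.1⟩, hx.2⟩))
        exact (Finset.card_le_card this).trans (Finset.card_insert_le _ _)
      have hT2 : e ∉ S → F.erase e ∩ (S \ Q) = F ∩ (S \ Q) := by
        intro heS
        ext x
        simp only [Finset.mem_inter, Finset.mem_erase, Finset.mem_sdiff]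
        by_cases hxe : x = e
        · subst hxe; simp [heS]
        · simp [hxe]
      -- common closing
      have hclose : ∀ G : Finset (Sym2 V), G ⊆ F.erase e → G.card = (F.erase e).card - b →
          F.erase e ∩ Q ⊆ G →
          ((S \ Q) \ A0).card ≤ (G ∩ (S \ Q)).card + (b + 1) * ((insert e A \ A0) ∩ S).card + b →
          ((G \ S).Nonempty →
            ((S \ Q) \ A0).card ≤ (G ∩ (S \ Q)).card + ((insert e A \ A0) ∩ S).card) →
          EWin b (HasStar k) t G (insert e A) := by
        intro G hG1 hG2 hG3 hG4 hG5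
        refine ih G (insert e A) ?_ hr (hA0.trans (Finset.subset_insert _ _)) ?_ ?_ hG4 hG5
          (by omega)
        · rcases Nat.eq_zero_or_pos m with h0 | h0
          · left
            rw [h0] at hm
            rw [← Finset.card_eq_zero]
            omega
          · right
            obtain ⟨m', rfl⟩ : ∃ m', m = m' + 1 := ⟨m - 1, by omega⟩
            have h2 : (m' + 1) * (b + 1) = m' * (b + 1) + (b + 1) := by ring
            exact ⟨m', by omega⟩
        · rw [Finset.disjoint_insert_right]
          refine ⟨fun h => (Finset.mem_erase.mp (hG1 h)).1 rfl, Finset.disjoint_of_subset_left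
            (hG1.trans (Finset.erase_subset _ _)) hd⟩
        · intro x hx
          have := hQ hx
          rw [Finset.mem_union] at this ⊢
          rcases this with h | h
          · by_cases hxe : x = e
            · exact Or.inr (Finset.mem_insert.mpr (Or.inl hxe))
            · exact Or.inl (hG3 (Finset.mem_inter.mpr ⟨Finset.mem_erase.mpr ⟨hxe, h⟩, hx⟩))
          · exact Or.inr (Finset.mem_insert.mpr (Or.inr h))
      by_cases hcase : (F.erase e ∩ S).card ≤ (F.erase e).card - b
      · -- claim only edges outside S
        obtain ⟨G, hG1, hG2, hG3⟩ := Finset.exists_subsuperset_card_eq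
          (Finset.inter_subset_left : F.erase e ∩ S ⊆ F.erase e) hcase (by omega)
        have hGT : G ∩ (S \ Q) = F.erase e ∩ (S \ Q) := by
          apply Finset.Subset.antisymm
          · exact Finset.inter_subset_inter_right hG2
          · intro x hx
            rw [Finset.mem_inter, Finset.mem_sdiff] at hx
            rw [Finset.mem_inter, Finset.mem_sdiff]
            exact ⟨hG1 (Finset.mem_inter.mpr ⟨hx.1, hx.2.1⟩), hx.2⟩
        refine ⟨G, hG2, hG3, hclose G hG2 hG3 ?_ ?_ ?_⟩
        · exact (Finset.inter_subset_inter_left hQS).trans hG1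
        · rw [hGT]
          by_cases heS : e ∈ S
          · rw [hcntS heS]
            have : (b + 1) * (((A \ A0) ∩ S).card + 1) =
                (b + 1) * ((A \ A0) ∩ S).card + (b + 1) := by ring
            omega
          · rw [hcntN heS, hT2 heS]
            exact hI2
        · intro hGS
          have hFS : (F \ S).Nonempty := by
            obtain ⟨x, hx⟩ := hGS
            rw [Finset.mem_sdiff] at hx
            exact ⟨x, Finset.mem_sdiff.mpr ⟨Finset.mem_of_mem_erase (hG2 hx.1), hx.2⟩⟩
          have h1 := hI1 hFS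
          rw [hGT]
          by_cases heS : e ∈ S
          · rw [hcntS heS]
            omega
          · rw [hcntN heS, hT2 heS]
            exact h1
      · -- claim all edges outside S and some of T
        push Not at hcase
        have hle : (F.erase e ∩ Q).card ≤ (F.erase e).card - b := by omega
        obtain ⟨G, hG1, hG2, hG3⟩ := Finset.exists_subsuperset_card_eq
          (Finset.inter_subset_inter_left hQS : F.erase e ∩ Q ⊆ F.erase e ∩ S) hle (by omega)
        have hG2' : G ⊆ F.erase e := hG2.trans Finset.inter_subset_left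
        have hbF : b ≤ (F.erase e).card := by omega
        have hGT : (F.erase e ∩ (S \ Q)).card ≤ (G ∩ (S \ Q)).card + b := by
          have hsub : F.erase e ∩ (S \ Q) ⊆ (G ∩ (S \ Q)) ∪ (F.erase e \ G) := by
            intro x hx
            rw [Finset.mem_inter] at hx
            by_cases hxG : x ∈ G
            · exact Finset.mem_union_left _ (Finset.mem_inter.mpr ⟨hxG, hx.2⟩)
            · exact Finset.mem_union_right _ (Finset.mem_sdiff.mpr ⟨hx.1, hxG⟩)
          calc (F.erase e ∩ (S \ Q)).card ≤ _ := Finset.card_le_card hsub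
            _ ≤ (G ∩ (S \ Q)).card + (F.erase e \ G).card := Finset.card_union_le _ _
            _ ≤ _ := by
              rw [Finset.card_sdiff_of_subset hG2', hG3]
              omega
        refine ⟨G, hG2', hG3, hclose G hG2' hG3 hG1 ?_ ?_⟩
        · by_cases heS : e ∈ S
          · rw [hcntS heS]
            have : (b + 1) * (((A \ A0) ∩ S).card + 1) =
                (b + 1) * ((A \ A0) ∩ S).card + (b + 1) := by ring
            omega
          · rw [hcntN heS]
            have h1 := hI1 ⟨e, Finset.mem_sdiff.mpr ⟨he, heS⟩⟩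
            rw [hT2 heS] at hGT
            have : (b + 1) * ((A \ A0) ∩ S).card =
                b * ((A \ A0) ∩ S).card + ((A \ A0) ∩ S).card := by ring
            omega
        · rintro ⟨x, hx⟩
          rw [Finset.mem_sdiff] at hx
          exact absurd (Finset.mem_inter.mp (hG2 hx.1)).2 hx.2

/-- complete bipartite edge set -/
def EE (W Q : Finset V) : Finset (Sym2 V) := (W ×ˢ Q).image (fun p => s(p.1, p.2))

theorem mem_EE (W Q : Finset V) (e : Sym2 V) : e ∈ EE W Q ↔ ∃ v ∈ W, ∃ w ∈ Q, s(v, w) = e := by
  simp only [EE, Finset.mem_image, Finset.mem_product, Prod.exists]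
  constructor
  · rintro ⟨v, w, ⟨h1, h2⟩, h3⟩
    exact ⟨v, h1, w, h2, h3⟩
  · rintro ⟨v, h1, w, h2, h3⟩
    exact ⟨v, w, ⟨h1, h2⟩, h3⟩

theorem card_EE (W Q : Finset V) (h : Disjoint W Q) : (EE W Q).card = W.card * Q.card := by
  unfold EE
  rw [Finset.card_image_of_injOn, Finset.card_product]
  rintro ⟨v, w⟩ h1 ⟨v', w'⟩ h2 h3
  simp only [Finset.coe_product, Set.mem_prod, Finset.mem_coe] at h1 h2
  simp only [Sym2.eq_iff] at h3
  rcases h3 with h3 | h3
  · exact Prod.ext h3.1 h3.2
  · exact absurd (h3.1 ▸ h1.1) (Finset.disjoint_right.mp h h2.2)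

theorem EE_mono {W W' Q Q' : Finset V} (h : W ⊆ W') (h' : Q ⊆ Q') : EE W Q ⊆ EE W' Q' :=
  Finset.image_subset_image (Finset.product_subset_product h h')

/-- if all degrees of `A` are below `k`, few edges of `A` touch `W` -/
theorem card_touch_le (A : Finset (Sym2 V)) (k : ℕ) (hA : ¬ HasStar (k + 1) A) (W : Finset V)
    (B : Finset (Sym2 V)) (hB : B ⊆ A) (hBW : ∀ e ∈ B, ∃ v ∈ W, v ∈ e) :
    B.card ≤ W.card * k := by
  have hsub : B ⊆ W.biUnion (fun v => A.filter (fun e => v ∈ e)) := by
    intro e he
    obtain ⟨v, hv, hve⟩ := hBW e he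
    rw [Finset.mem_biUnion]
    exact ⟨v, hv, Finset.mem_filter.mpr ⟨hB he, hve⟩⟩
  refine (Finset.card_le_card hsub).trans (Finset.card_biUnion_le_card_mul _ _ _ ?_)
  intro v _
  by_contra h
  exact hA ⟨v, by omega⟩

/-- The tail of the family `R`. -/
def Rt (R : ℕ → Finset V) (K j : ℕ) : Finset V := (Finset.Icc j K).biUnion R

theorem enforcer_main (b K r ρ : ℕ) (hr1 : 1 ≤ r) (hr2 : r ≤ b + 1) (P : Finset V)
    (R : ℕ → Finset V) (hPR : ∀ i ≤ K, Disjoint P (R i))
    (hRR : ∀ i ≤ K, ∀ j ≤ K, i ≠ j → Disjoint (R i) (R j)) (hR : ∀ i ≤ K, ρ ≤ (R i).card)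
    (w : ℕ → ℕ) (hw : ∀ j < K, ∀ w', w j * (ρ - K) ≤ 2 * b + (b + 1) * (w' * K) → w (j + 1) ≤ w')
    (hlast : r ≤ w K * (ρ - K)) :
    ∀ (i j : ℕ), j + i = K → ∀ W : Finset V, W ⊆ P → w j ≤ W.card →
      ∀ (t : ℕ) (F A : Finset (Sym2 V)), Disjoint F A → EE W (Rt R K j) ⊆ F ∪ A →
      (∀ v ∈ W, j ≤ dg A v) → F.card ≤ t → (F = ∅ ∨ ∃ m, F.card = m * (b + 1) + r) →
      EWin b (HasStar (K + 1)) t F A := by
  have hdis : ∀ W ⊆ P, ∀ j, Disjoint W (Rt R K j) := by
    intro W hW j
    unfold Rt
    rw [Finset.disjoint_biUnion_right]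
    intro i hi
    exact Finset.disjoint_of_subset_left hW (hPR i (Finset.mem_Icc.mp hi).2)
  intro i
  induction i with
  | zero =>
    intro j hj W hWP hwW t F A hd hEE hdeg hFt hF
    have hjK : j = K := by omega
    subst hjK
    by_cases hbad : HasStar (j + 1) A
    · exact ewin_of_bad b _ (hasStar_mono _) _ _ _ hbad
    · -- many free edges
      have hR' : Rt R j j = R j := by simp [Rt]
      rw [hR'] at hEE
      have hdWR : Disjoint W (R j) := Finset.disjoint_of_subset_left hWP (hPR j le_rfl)
      have h1 : (EE W (R j)).card = W.card * (R j).card := card_EE W (R j) hdWR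
      have h2 : (EE W (R j) ∩ A).card ≤ W.card * j := by
        apply card_touch_le A j hbad W _ Finset.inter_subset_right
        intro e he
        rw [Finset.mem_inter, mem_EE] at he
        obtain ⟨⟨v, hv, x, _, rfl⟩, _⟩ := he
        exact ⟨v, hv, by simp⟩
      have h3 : EE W (R j) ⊆ (EE W (R j) ∩ F) ∪ (EE W (R j) ∩ A) := by
        intro e he
        have := hEE he
        rw [Finset.mem_union] at this
        rw [Finset.mem_union, Finset.mem_inter, Finset.mem_inter]
        tauto
      have h4 := (Finset.card_le_card h3).trans (Finset.card_union_le _ _)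
      have h5 : W.card * ρ ≤ W.card * (R j).card := Nat.mul_le_mul_left _ (hR j le_rfl)
      have h6 : w j * (ρ - j) ≤ W.card * (ρ - j) := Nat.mul_le_mul_right _ hwW
      have h7 : W.card * (ρ - j) = W.card * ρ - W.card * j := Nat.mul_sub _ _ _
      obtain ⟨S, hS1, hS2⟩ := Finset.exists_subset_card_eq
        (show r ≤ (EE W (R j) ∩ F).card by omega)
      have hne : ∃ m, F.card = m * (b + 1) + r := by
        rcases hF with h | h
        · exfalso
          rw [h] at hS1
          have := Finset.card_le_card hS1
          simp only [Finset.inter_empty, Finset.card_empty] at this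
          omega
        · exact h
      refine final_stage b (j + 1) r hr1 hr2 t F A S hne (hS1.trans Finset.inter_subset_right) hS2
        ?_ hd hFt
      intro e he A' hAA' heA'
      have h8 := hS1 he
      rw [Finset.mem_inter, mem_EE] at h8
      obtain ⟨⟨v, hv, x, _, rfl⟩, _⟩ := h8
      refine ⟨v, ?_⟩
      have h9 := dg_insert_eq A' s(v, x) v (by simp) heA'
      unfold dg at h9
      rw [h9]
      have h10 := dg_mono hAA' v
      have h11 := hdeg v hv
      unfold dg at h10 h11
      omega
  | succ i ih =>
    intro j hj W hWP hwW t F A hd hEE hdeg hFt hF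
    by_cases hbad : HasStar (K + 1) A
    · exact ewin_of_bad b _ (hasStar_mono _) _ _ _ hbad
    · have hjK : j < K := by omega
      set S := EE W (Rt R K j) with hS
      set Q := EE W (Rt R K (j + 1)) with hQ
      have hRsub : Rt R K (j + 1) ⊆ Rt R K j :=
        Finset.biUnion_subset_biUnion_of_subset_left _ (Finset.Icc_subset_Icc_left (by omega))
      have hQS : Q ⊆ S := EE_mono (Finset.Subset.refl _) hRsub
      have hTS : EE W (R j) ⊆ S \ Q := by
        intro e he
        rw [mem_EE] at he
        obtain ⟨v, hv, x, hx, rfl⟩ := he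
        rw [Finset.mem_sdiff]
        constructor
        · rw [hS, mem_EE]
          refine ⟨v, hv, x, ?_, rfl⟩
          unfold Rt
          rw [Finset.mem_biUnion]
          exact ⟨j, Finset.mem_Icc.mpr ⟨le_rfl, hjK.le⟩, hx⟩
        · intro h
          rw [hQ, mem_EE] at h
          obtain ⟨v', hv', x', hx', h⟩ := h
          rw [Sym2.eq_iff] at h
          rcases h with h | h
          · rw [h.2] at hx'
            unfold Rt at hx'
            rw [Finset.mem_biUnion] at hx'
            obtain ⟨i', hi', hx'⟩ := hx'
            rw [Finset.mem_Icc] at hi'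
            exact Finset.disjoint_left.mp (hRR j hjK.le i' hi'.2 (by omega)) hx hx'
          · exact Finset.disjoint_left.mp (hPR j hjK.le) (hWP (h.1 ▸ hv')) hx
      have hsub1 : (S \ Q) \ A ⊆ F ∩ (S \ Q) := by
        intro e he
        rw [Finset.mem_sdiff] at he
        have h1 := hEE (Finset.mem_sdiff.mp he.1).1
        rw [Finset.mem_union] at h1
        rw [Finset.mem_inter]
        rcases h1 with h1 | h1
        · exact ⟨h1, he.1⟩
        · exact absurd h1 he.2
      have hc1 := Finset.card_le_card hsub1
      refine stage b (K + 1) r S Q A hQS ?_ t F A hF hr2 (Finset.Subset.refl _) hd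
        (hQS.trans hEE) (by omega) (fun _ => by omega) hFt
      intro t' F' A' hF' hAA' hd' hQ' hI2 hend hFt'
      by_cases hbad' : HasStar (K + 1) A'
      · exact ewin_of_bad b _ (hasStar_mono _) _ _ _ hbad'
      · let W' : Finset V := W.filter (fun v => ∃ e ∈ A' \ A, e ∈ S ∧ v ∈ e)
        have hW'W : W' ⊆ W := Finset.filter_subset _ _
        have h1 : ((A' \ A) ∩ S).card ≤ W'.card * K := by
          apply card_touch_le A' K hbad' W'
          · exact Finset.inter_subset_left.trans Finset.sdiff_subset
          · intro e he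
            rw [Finset.mem_inter] at he
            have h2 := he.2
            rw [hS, mem_EE] at h2
            obtain ⟨v, hv, x, _, rfl⟩ := h2
            exact ⟨v, Finset.mem_filter.mpr ⟨hv, _, he.1, he.2, by simp⟩, by simp⟩
        have h2 : (F' ∩ (S \ Q)).card ≤ b := by
          refine (Finset.card_le_card ?_).trans hend
          intro e he
          rw [Finset.mem_inter, Finset.mem_sdiff] at he
          exact Finset.mem_sdiff.mpr ⟨he.1, he.2.2⟩
        have h3 : (b + 1) * ((A' \ A) ∩ S).card ≤ (b + 1) * (W'.card * K) :=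
          Nat.mul_le_mul_left _ h1
        have h4 : W.card * ρ ≤ ((S \ Q) \ A).card + W.card * K := by
          have h5 : EE W (R j) ⊆ ((S \ Q) \ A) ∪ (EE W (R j) ∩ A) := by
            intro e he
            rw [Finset.mem_union, Finset.mem_sdiff, Finset.mem_inter]
            by_cases h : e ∈ A
            · exact Or.inr ⟨he, h⟩
            · exact Or.inl ⟨hTS he, h⟩
          have h6 : (EE W (R j)).card = W.card * (R j).card :=
            card_EE W (R j) (Finset.disjoint_of_subset_left hWP (hPR j hjK.le))
          have h7 : (EE W (R j) ∩ A).card ≤ W.card * K := by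
            apply card_touch_le A K hbad W _ Finset.inter_subset_right
            intro e he
            rw [Finset.mem_inter, mem_EE] at he
            obtain ⟨⟨v, hv, x, _, rfl⟩, _⟩ := he
            exact ⟨v, hv, by simp⟩
          have h8 := (Finset.card_le_card h5).trans (Finset.card_union_le _ _)
          have h9 : W.card * ρ ≤ W.card * (R j).card := Nat.mul_le_mul_left _ (hR j hjK.le)
          omega
        have h5 : w j * (ρ - K) ≤ 2 * b + (b + 1) * (W'.card * K) := by
          have h6 : w j * (ρ - K) ≤ W.card * (ρ - K) := Nat.mul_le_mul_right _ hwW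
          have h7 : W.card * (ρ - K) = W.card * ρ - W.card * K := Nat.mul_sub _ _ _
          omega
        have h6 := hw j hjK _ h5
        refine ih (j + 1) (by omega) W' (hW'W.trans hWP) h6 t' F' A' hd' ?_ ?_ hFt' hF'
        · exact (EE_mono hW'W (Finset.Subset.refl _)).trans hQ'
        · intro v hv
          rw [Finset.mem_filter] at hv
          obtain ⟨hvW, e, he, _, hve⟩ := hv
          rw [Finset.mem_sdiff] at he
          have h7 := hdeg v hvW
          have h8 : dg (insert e A) v = dg A v + 1 := dg_insert_eq A e v hve he.2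
          have h9 : dg (insert e A) v ≤ dg A' v :=
            dg_mono (Finset.insert_subset he.1 hAA') v
          omega

end Pool.Agent.X69.Star
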