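import Mathlib
import Pool.Agent.X69.Star.Defs
import Pool.Agent.X69.Star.Avoider
import Pool.Agent.X69.Star.Enforcer

/-! Numerical criteria. -/

namespace Pool.Agent.X69.Star

theorem card_edges (n : ℕ) : (edges n).card = n.choose 2 := by
  have h := Sym2.card_subtype_not_diag (α := Fin n)
  rw [Fintype.card_fin] at h
  rw [← h, Fintype.card_subtype]
  rfl

theorem edges_le (n : ℕ) : 2 * (edges n).card ≤ n * n := by
  rw [card_edges, Nat.choose_two_right]
  have h : n * (n - 1) ≤ n * n := Nat.mul_le_mul_left _ (Nat.sub_le _ _)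
  have h2 : 2 * (n * (n - 1) / 2) ≤ n * (n - 1) := Nat.mul_div_le _ _
  omega

theorem edges_ge (n : ℕ) (hn : 2 ≤ n) : n * n ≤ 4 * (edges n).card := by
  rw [card_edges, Nat.choose_two_right]
  obtain ⟨m, rfl⟩ : ∃ m, n = m + 2 := ⟨n - 2, by omega⟩
  have e1 : m + 2 - 1 = m + 1 := by omega
  rw [e1]
  have h2 : 2 * ((m + 2) * (m + 1) / 2) = (m + 2) * (m + 1) := by
    apply Nat.mul_div_cancel'
    have := Nat.even_mul_succ_self (m + 1)
    have h3 : (m + 2) * (m + 1) = (m + 1) * (m + 1 + 1) := by ring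
    rw [h3]
    exact this.two_dvd
  have h3 : (m + 2) * (m + 2) ≤ 2 * ((m + 2) * (m + 1)) := by nlinarith
  omega

/-- the blocks of the vertex partition -/
def blk (n a c : ℕ) : Finset (Fin n) := Finset.univ.filter (fun v => a ≤ v.1 ∧ v.1 < a + c)

theorem card_blk (n a c : ℕ) (h : a + c ≤ n) : (blk n a c).card = c := by
  have : (blk n a c).card = (Finset.range c).card := by
    symm
    apply Finset.card_bij (fun i hi => (⟨a + i, by
      rw [Finset.mem_range] at hi; omega⟩ : Fin n))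
    · intro i hi
      rw [Finset.mem_range] at hi
      simp [blk, hi]
    · intro i hi j hj hij
      simpa using hij
    · intro v hv
      simp only [blk, Finset.mem_filter, Finset.mem_univ, true_and] at hv
      exact ⟨v.1 - a, Finset.mem_range.mpr (by omega), by ext; simp; omega⟩
  rw [this, Finset.card_range]

theorem disjoint_blk (n a c a' c' : ℕ) (h : a + c ≤ a') : Disjoint (blk n a c) (blk n a' c') := by
  rw [Finset.disjoint_left]
  intro v h1 h2
  simp only [blk, Finset.mem_filter, Finset.mem_univ, true_and] at h1 h2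
  omega

/-- the sequence of guaranteed sizes -/
def wseq (h y D : ℕ) : ℕ → ℕ
  | 0 => h
  | j + 1 => wseq h y D j * y / D

theorem wseq_ge (h y D K : ℕ) (hD : 1 ≤ D) (hh : 1 ≤ h) (hc : (2 * D) ^ K ≤ 2 * h * y ^ K) :
    ∀ j ≤ K, h * y ^ j ≤ wseq h y D j * (2 * D) ^ j := by
  intro j
  induction j with
  | zero => intro _; simp [wseq]
  | succ j ih =>
    intro hj
    have ih' := ih (by omega)
    have hpos : 0 < (2 * D) ^ j := by positivity
    -- w_j y ≥ D
    have h1 : (2 * D) ^ (j + 1) ≤ 2 * h * y ^ (j + 1) := by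
      rcases Nat.lt_or_ge y (2 * D) with hy | hy
      · obtain ⟨m, rfl⟩ : ∃ m, K = j + 1 + m := ⟨K - (j + 1), by omega⟩
        have h2 : y ^ m ≤ (2 * D) ^ m := Nat.pow_le_pow_left hy.le _
        have h3 : 0 < (2 * D) ^ m := by positivity
        rw [pow_add (2 * D) (j + 1) m, pow_add y (j + 1) m] at hc
        have h4 : 2 * h * (y ^ (j + 1) * y ^ m) ≤ 2 * h * y ^ (j + 1) * (2 * D) ^ m := by
          rw [← mul_assoc]
          exact Nat.mul_le_mul_left _ h2
        exact Nat.le_of_mul_le_mul_right (hc.trans h4) h3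
      · have h2 : (2 * D) ^ (j + 1) ≤ y ^ (j + 1) := Nat.pow_le_pow_left hy _
        have h3 : 1 * y ^ (j + 1) ≤ 2 * h * y ^ (j + 1) := Nat.mul_le_mul_right _ (by omega)
        omega
    have h2 : D ≤ wseq h y D j * y := by
      have h3 : h * y ^ (j + 1) ≤ wseq h y D j * y * (2 * D) ^ j := by
        calc h * y ^ (j + 1) = h * y ^ j * y := by ring
          _ ≤ wseq h y D j * (2 * D) ^ j * y := Nat.mul_le_mul_right _ ih'
          _ = _ := by ring
      have h4 : D * (2 * D) ^ j * 2 ≤ wseq h y D j * y * (2 * D) ^ j * 2 := by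
        calc D * (2 * D) ^ j * 2 = (2 * D) ^ (j + 1) := by ring
          _ ≤ 2 * h * y ^ (j + 1) := h1
          _ = h * y ^ (j + 1) * 2 := by ring
          _ ≤ _ := Nat.mul_le_mul_right _ h3
      have h5 := Nat.le_of_mul_le_mul_right h4 (by norm_num)
      exact Nat.le_of_mul_le_mul_right h5 hpos
    have h3 : wseq h y D j * y ≤ 2 * D * wseq h y D (j + 1) := by
      simp only [wseq]
      have h4 := Nat.div_add_mod (wseq h y D j * y) D
      have h5 := Nat.mod_lt (wseq h y D j * y) (show 0 < D by omega)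
      have h6 : 1 ≤ wseq h y D j * y / D := by
        rw [Nat.le_div_iff_mul_le (by omega)]
        omega
      have h7 : D * 1 ≤ D * (wseq h y D j * y / D) := Nat.mul_le_mul_left _ h6
      have h8 : 2 * D * (wseq h y D j * y / D) = 2 * (D * (wseq h y D j * y / D)) := by ring
      omega
    calc h * y ^ (j + 1) = h * y ^ j * y := by ring
      _ ≤ wseq h y D j * (2 * D) ^ j * y := Nat.mul_le_mul_right _ ih'
      _ = wseq h y D j * y * (2 * D) ^ j := by ring
      _ ≤ 2 * D * wseq h y D (j + 1) * (2 * D) ^ j := Nat.mul_le_mul_right _ h3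
      _ = _ := by ring

/-- Criterion for Enforcer. -/
theorem enforcer_crit (n K b m r : ℕ) (hK : 2 ≤ K) (hr1 : 1 ≤ r) (hr2 : r ≤ b + 1)
    (hN : (edges n).card = m * (b + 1) + r) (hn : 2 ≤ n)
    (hc : (2 * ((K + 1) * (b + 1))) ^ K ≤ 2 * (n / 2) * (n / (2 * (K + 1)) - K) ^ K)
    (hr : r ≤ n / (2 * (K + 1)) - K ∨
      r * (2 * ((K + 1) * (b + 1))) ^ K ≤ (n / 2) * (n / (2 * (K + 1)) - K) ^ (K + 1)) :
    EnforcerWins n (K + 1) b := by
  set ρ := n / (2 * (K + 1)) with hρ
  set D := (K + 1) * (b + 1) with hD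
  have hDpos : 1 ≤ D := Nat.mul_pos (by omega) (by omega)
  have hhpos : 1 ≤ n / 2 := by omega
  have hρn : (K + 1) * ρ ≤ n / 2 := by
    rw [Nat.le_div_iff_mul_le (by norm_num)]
    calc (K + 1) * ρ * 2 = 2 * (K + 1) * ρ := by ring
      _ ≤ n := Nat.mul_div_le _ _
  have hbd : ∀ i ≤ K, n / 2 + i * ρ + ρ ≤ n := by
    intro i hi
    have : (i + 1) * ρ ≤ (K + 1) * ρ := Nat.mul_le_mul_right _ (by omega)
    have h2 : (i + 1) * ρ = i * ρ + ρ := by ring
    omega
  have hge := wseq_ge (n / 2) (ρ - K) D K hDpos hhpos hc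
  unfold EnforcerWins
  refine enforcer_main b K r ρ hr1 hr2 (blk n 0 (n / 2)) (fun i => blk n (n / 2 + i * ρ) ρ)
    ?_ ?_ ?_ (wseq (n / 2) (ρ - K) D) ?_ ?_ K 0 (by omega) (blk n 0 (n / 2))
    (Finset.Subset.refl _) ?_ _ _ _ ?_ ?_ ?_ le_rfl (Or.inr ⟨m, hN⟩)
  · intro i _
    exact disjoint_blk _ _ _ _ _ (by omega)
  · intro i _ j _ hij
    have key : ∀ i j, i < j → Disjoint (blk n (n / 2 + i * ρ) ρ) (blk n (n / 2 + j * ρ) ρ) := by
      intro i j hij
      apply disjoint_blk
      have : (i + 1) * ρ ≤ j * ρ := Nat.mul_le_mul_right _ (by omega)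
      have h2 : (i + 1) * ρ = i * ρ + ρ := by ring
      omega
    rcases Nat.lt_or_gt_of_ne hij with h | h
    · exact key i j h
    · exact (key j i h).symm
  · intro i hi
    exact (card_blk n _ _ (hbd i hi)).ge
  · intro j _ w' hw'
    by_contra hcon
    push Not at hcon
    have h1 : D * wseq (n / 2) (ρ - K) D (j + 1) ≤ wseq (n / 2) (ρ - K) D j * (ρ - K) := by
      simp only [wseq]
      exact Nat.mul_div_le _ _
    have h2 : D * (w' + 1) ≤ D * wseq (n / 2) (ρ - K) D (j + 1) := Nat.mul_le_mul_left _ hcon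
    have h3 : D * (w' + 1) = (b + 1) * (w' * K) + (b + 1) * w' + K * (b + 1) + (b + 1) := by
      rw [hD]; ring
    have h4 : 2 * (b + 1) ≤ K * (b + 1) := Nat.mul_le_mul_right _ hK
    omega
  · rcases hr with h | h
    · have h1 := hge K le_rfl
      have h2 : 1 ≤ wseq (n / 2) (ρ - K) D K := by
        by_contra hcon
        have h3 : wseq (n / 2) (ρ - K) D K = 0 := by omega
        rw [h3, zero_mul] at h1
        have h4 : 0 < (2 * D) ^ K := by positivity
        have h5 : 2 * (n / 2) * (ρ - K) ^ K = 2 * ((n / 2) * (ρ - K) ^ K) := by ring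
        omega
      calc r ≤ 1 * (ρ - K) := by omega
        _ ≤ _ := Nat.mul_le_mul_right _ h2
    · have h1 := Nat.mul_le_mul_right (ρ - K) (hge K le_rfl)
      have h4 : 0 < (2 * D) ^ K := by positivity
      apply Nat.le_of_mul_le_mul_right _ h4
      calc r * (2 * D) ^ K ≤ (n / 2) * (ρ - K) ^ (K + 1) := h
        _ = (n / 2) * (ρ - K) ^ K * (ρ - K) := by ring
        _ ≤ wseq (n / 2) (ρ - K) D K * (2 * D) ^ K * (ρ - K) := h1
        _ = _ := by ring
  · rw [card_blk n 0 (n / 2) (by omega)]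
    simp [wseq]
  · simp
  · rw [Finset.union_empty]
    intro e he
    rw [mem_EE] at he
    obtain ⟨v, hv, x, hx, rfl⟩ := he
    simp only [edges, Finset.mem_filter, Finset.mem_univ, true_and, Sym2.mk_isDiag_iff]
    rintro rfl
    unfold Rt at hx
    rw [Finset.mem_biUnion] at hx
    obtain ⟨i, _, hx⟩ := hx
    simp only [blk, Finset.mem_filter, Finset.mem_univ, true_and] at hv hx
    omega
  · intro v _
    exact Nat.zero_le _

theorem inv_start (n b : ℕ) : Inv b (edges n) ∅ := by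
  intro j
  have h1 : (VV (∅ : Finset (Sym2 (Fin n))) (j + 1)).card = 0 := by
    rw [Finset.card_eq_zero]
    ext v
    simp [VV, dg]
  rw [h1]
  omega

/-- Criterion for Avoider. -/
theorem avoider_crit (n k b m r : ℕ) (hk : 2 ≤ k) (hr1 : 1 ≤ r) (hr2 : r ≤ b + 1)
    (hN : (edges n).card = m * (b + 1) + r)
    (hc : LL b n (k - 2) ≤ 1 ∨ 2 * LL b n (k - 2) * n < r) : ¬ EnforcerWins n k b := by
  unfold EnforcerWins
  refine avoider_main b k r hr1 hr2 hk ?_ _ _ _ (Or.inr ⟨m, hN⟩) (inv_start n b) ?_ le_rfl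
  · rw [Fintype.card_fin]
    exact hc
  · intro v
    simp [dg]

theorem LL_le (n b : ℕ) (a : ℝ) (ha : a = 2 * n / (b + 1)) (ha2 : a ≤ 1 / 2) (j : ℕ) :
    (LL b n j : ℝ) ≤ (n / 2) * a ^ (j + 1) + 2 := by
  have hb : (0 : ℝ) < b + 1 := by positivity
  have ha0 : 0 ≤ a := by rw [ha]; positivity
  have hr : ∀ m : ℕ, (rds b m : ℝ) ≤ m / (b + 1) + 1 := by
    intro m
    unfold rds
    have h1 : (((m + b) / (b + 1) : ℕ) : ℝ) ≤ ((m + b : ℕ) : ℝ) / ((b + 1 : ℕ) : ℝ) :=
      Nat.cast_div_le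
    refine h1.trans ?_
    push_cast
    rw [div_le_iff₀ hb]
    have : ((m : ℝ) / (b + 1) + 1) * (b + 1) = m + (b + 1) := by field_simp
    rw [this]
    linarith
  induction j with
  | zero =>
    simp only [LL]
    refine (hr _).trans ?_
    push_cast
    have : (n : ℝ) * n / (b + 1) = (n / 2) * a ^ (0 + 1) := by
      rw [ha]; simp only [zero_add, pow_one]; field_simp
    rw [this]
    linarith
  | succ j ih =>
    simp only [LL]
    refine (hr _).trans ?_
    push_cast
    have h1 : 2 * (LL b n j : ℝ) * n / (b + 1) = a * LL b n j := by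
      rw [ha]; field_simp
    rw [h1]
    have h2 : a * (LL b n j : ℝ) ≤ a * ((n / 2) * a ^ (j + 1) + 2) :=
      mul_le_mul_of_nonneg_left ih ha0
    have h3 : a * ((n / 2) * a ^ (j + 1) + 2) = (n / 2) * a ^ (j + 1 + 1) + 2 * a := by ring
    linarith

end Pool.Agent.X69.Star
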