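import Mathlib
import Pool.Agent.X69.Star.Defs
import Pool.Agent.X69.Star.Avoider
import Pool.Agent.X69.Star.Enforcer
import Pool.Agent.X69.Star.Criteria

/-! Asymptotics of the threshold biases. -/

namespace Pool.Agent.X69.Star

open Filter Asymptotics

/-- `n ^ ((s+1)/s)` -/
noncomputable def XX (s n : ℕ) : ℝ := (n : ℝ) ^ (((s : ℝ) + 1) / s)

theorem XX_nonneg (s n : ℕ) : 0 ≤ XX s n := Real.rpow_nonneg (Nat.cast_nonneg _) _

theorem XX_pow (s n : ℕ) (hs : 1 ≤ s) : XX s n ^ s = (n : ℝ) ^ (s + 1) := by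
  have hs' : (s : ℝ) ≠ 0 := by exact_mod_cast (by omega : s ≠ 0)
  unfold XX
  rw [← Real.rpow_natCast, ← Real.rpow_mul (Nat.cast_nonneg _), div_mul_cancel₀ _ hs']
  rw [← Real.rpow_natCast (n : ℝ) (s + 1)]
  push_cast
  rfl

theorem XX_eq (s n : ℕ) (hs : 1 ≤ s) (hn : 1 ≤ n) : XX s n = n * (n : ℝ) ^ (1 / (s : ℝ)) := by
  have hs' : (s : ℝ) ≠ 0 := by exact_mod_cast (by omega : s ≠ 0)
  have hn' : (0 : ℝ) < n := by exact_mod_cast hn
  unfold XX
  have : ((s : ℝ) + 1) / s = 1 + 1 / s := by field_simp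
  rw [this, Real.rpow_add hn', Real.rpow_one]

theorem XX_ge (s : ℕ) (hs : 1 ≤ s) (M : ℝ) : ∀ᶠ n : ℕ in atTop, M * n ≤ XX s n := by
  have hs' : (0 : ℝ) < 1 / (s : ℝ) := by
    have : (0 : ℝ) < s := by exact_mod_cast hs
    positivity
  have h1 : Tendsto (fun n : ℕ => (n : ℝ) ^ (1 / (s : ℝ))) atTop atTop :=
    (tendsto_rpow_atTop hs').comp tendsto_natCast_atTop_atTop
  filter_upwards [h1.eventually_ge_atTop M, eventually_ge_atTop 1] with n h2 h3
  rw [XX_eq s n hs h3, mul_comm]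
  exact mul_le_mul_of_nonneg_left h2 (Nat.cast_nonneg _)

theorem XX_le (s : ℕ) (hs : 2 ≤ s) (M : ℝ) : ∀ᶠ n : ℕ in atTop, M * XX s n ≤ (n : ℝ) ^ 2 := by
  have hs0 : (0 : ℝ) < s := by exact_mod_cast (by omega : 0 < s)
  have hs1 : (1 : ℝ) < s := by exact_mod_cast (by omega : 1 < s)
  have hs' : (0 : ℝ) < 1 - 1 / (s : ℝ) := by
    have : 1 / (s : ℝ) < 1 := by rw [div_lt_one hs0]; exact hs1
    linarith
  have h1 : Tendsto (fun n : ℕ => (n : ℝ) ^ (1 - 1 / (s : ℝ))) atTop atTop :=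
    (tendsto_rpow_atTop hs').comp tendsto_natCast_atTop_atTop
  filter_upwards [h1.eventually_ge_atTop M, eventually_ge_atTop 1] with n h2 h3
  have hn' : (0 : ℝ) < n := by exact_mod_cast h3
  have h4 : (n : ℝ) ^ (1 - 1 / (s : ℝ)) * XX s n = (n : ℝ) ^ 2 := by
    rw [XX_eq s n (by omega) h3]
    have : (n : ℝ) ^ (1 - 1 / (s : ℝ)) * (n * (n : ℝ) ^ (1 / (s : ℝ))) =
        n * ((n : ℝ) ^ (1 - 1 / (s : ℝ)) * (n : ℝ) ^ (1 / (s : ℝ))) := by ring
    rw [this, ← Real.rpow_add hn']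
    have e : 1 - 1 / (s : ℝ) + 1 / s = 1 := by ring
    rw [e, Real.rpow_one]
    ring
  rw [← h4]
  exact mul_le_mul_of_nonneg_right h2 (XX_nonneg s n)

/-- bounds on the auxiliary quantities -/
theorem aux_bounds (K : ℕ) : ∀ᶠ n : ℕ in atTop,
    (n : ℝ) / 3 ≤ ((n / 2 : ℕ) : ℝ) ∧
      (n : ℝ) / (4 * (K + 1)) ≤ ((n / (2 * (K + 1)) - K : ℕ) : ℝ) := by
  filter_upwards [eventually_ge_atTop (4 * (K + 1) * (K + 1) + 6)] with n hn
  have hn' : (4 * ((K : ℝ) + 1) * (K + 1) + 6) ≤ n := by exact_mod_cast hn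
  have hK : (0 : ℝ) ≤ K := Nat.cast_nonneg _
  constructor
  · have h1 : (n : ℝ) < 2 * (((n / 2 : ℕ) : ℝ) + 1) := by
      have : n < 2 * (n / 2 + 1) := by omega
      exact_mod_cast this
    nlinarith
  · have h1 : (n : ℝ) < 2 * (K + 1) * (((n / (2 * (K + 1)) : ℕ) : ℝ) + 1) := by
      have : n < (2 * (K + 1)) * (n / (2 * (K + 1)) + 1) :=
        Nat.lt_mul_div_succ n (by omega)
      exact_mod_cast this
    have h2 : ((n / (2 * (K + 1)) : ℕ) : ℝ) ≤ ((n / (2 * (K + 1)) - K : ℕ) : ℝ) + K := by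
      have : n / (2 * (K + 1)) ≤ n / (2 * (K + 1)) - K + K := by omega
      exact_mod_cast this
    rw [div_le_iff₀ (by positivity)]
    nlinarith

theorem lower_plus (K : ℕ) (hK : 2 ≤ K) : ∃ c : ℝ, 0 < c ∧ ∀ᶠ n : ℕ in atTop,
    ∃ b : ℕ, 1 ≤ b ∧ c * XX K n ≤ b ∧ EnforcerWins n (K + 1) b := by
  have hKr : (2 : ℝ) ≤ K := by exact_mod_cast hK
  set c0 : ℝ := 1 / (16 * (K + 1) ^ 2) with hc0
  have hc0pos : 0 < c0 := by positivity
  refine ⟨c0 / 8, by positivity, ?_⟩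
  filter_upwards [aux_bounds K, XX_ge K (by omega) (4 * (K + 1) / c0 + 16 / c0),
    XX_le K hK (4 * c0), eventually_ge_atTop 16] with n hb hge hle hn
  obtain ⟨hb1, hb2⟩ := hb
  have hnr : (16 : ℝ) ≤ n := by exact_mod_cast hn
  set Z : ℝ := c0 * XX K n with hZ
  have hXge : (4 * (K + 1) / c0 + 16 / c0) * (n : ℝ) * c0 ≤ Z := by
    rw [hZ, mul_comm c0]
    exact mul_le_mul_of_nonneg_right hge hc0pos.le
  have hZge : (4 * ((K : ℝ) + 1) + 16) * n ≤ Z := by
    have : (4 * (K + 1) / c0 + 16 / c0) * (n : ℝ) * c0 = (4 * ((K : ℝ) + 1) + 16) * n := by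
      field_simp
    rw [this] at hXge
    exact hXge
  have hZn : 16 * (n : ℝ) ≤ Z := by nlinarith
  have hZpos : 0 < Z := by linarith
  set N := (edges n).card with hN
  have hN1 : 2 * (N : ℝ) ≤ (n : ℝ) ^ 2 := by
    have := edges_le n
    have h : 2 * (N : ℝ) ≤ (n : ℝ) * n := by exact_mod_cast this
    rw [sq]; exact h
  have hN2 : (n : ℝ) ^ 2 ≤ 4 * (N : ℝ) := by
    have := edges_ge n (by omega)
    have h : (n : ℝ) * n ≤ 4 * (N : ℝ) := by exact_mod_cast this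
    rw [sq]; exact h
  have hNZ : Z ≤ N := by
    have : 4 * c0 * XX K n = 4 * Z := by rw [hZ]; ring
    rw [this] at hle
    linarith
  have hNpos : (0 : ℝ) < N := by linarith
  have hN16 : (16 : ℝ) ≤ N := by nlinarith
  -- the number m
  set m := ⌈(N : ℝ) / Z⌉₊ with hm
  have hm1 : (N : ℝ) / Z ≤ m := Nat.le_ceil _
  have hm2 : (m : ℝ) < (N : ℝ) / Z + 1 := Nat.ceil_lt_add_one (by positivity)
  have hNZ1 : 1 ≤ (N : ℝ) / Z := by rw [le_div_iff₀ hZpos]; linarith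
  have hmpos : 0 < m := by
    have : (0 : ℝ) < m := by linarith
    exact_mod_cast this
  have hmr : (0 : ℝ) < m := by exact_mod_cast hmpos
  have hm3 : (m : ℝ) ≤ 2 * (N / Z) := by linarith
  have hmZ : (N : ℝ) ≤ m * Z := by rwa [div_le_iff₀ hZpos] at hm1
  -- m ≤ n / (4 (K+1))
  have hm4 : (m : ℝ) ≤ (n : ℝ) / (4 * (K + 1)) := by
    refine hm3.trans ?_
    rw [le_div_iff₀ (by positivity)]
    have : 2 * ((N : ℝ) / Z) * (4 * (K + 1)) = (2 * N) * (4 * (K + 1)) / Z := by ring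
    rw [this, div_le_iff₀ hZpos]
    have h1 : (2 * (N : ℝ)) * (4 * (K + 1)) ≤ (n : ℝ) ^ 2 * (4 * (K + 1)) :=
      mul_le_mul_of_nonneg_right hN1 (by positivity)
    have h2 : (n : ℝ) * ((4 * ((K : ℝ) + 1)) * n) ≤ n * Z :=
      mul_le_mul_of_nonneg_left (by nlinarith) (by positivity)
    nlinarith
  -- the number b + 1
  set B := (N - 1) / m with hB
  have hNnat : 16 ≤ N := by exact_mod_cast hN16
  have hBup : (B : ℝ) ≤ Z := by
    have h1 : (B : ℝ) ≤ ((N - 1 : ℕ) : ℝ) / m := Nat.cast_div_le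
    have h2 : ((N - 1 : ℕ) : ℝ) ≤ N := by exact_mod_cast Nat.sub_le _ _
    refine h1.trans ?_
    rw [div_le_iff₀ hmr]
    linarith
  have hBlow : Z / 4 - 1 ≤ (B : ℝ) := by
    have h1 : ((N - 1 : ℕ) : ℝ) < m * (B + 1) := by
      have : N - 1 < m * ((N - 1) / m + 1) := Nat.lt_mul_div_succ _ hmpos
      exact_mod_cast this
    have h2 : (N : ℝ) / 2 ≤ ((N - 1 : ℕ) : ℝ) := by
      have : ((N - 1 : ℕ) : ℝ) = N - 1 := by
        rw [Nat.cast_sub (by omega)]; simp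
      rw [this]; linarith
    have h3 : (m : ℝ) * (B + 1) ≤ 2 * (N / Z) * (B + 1) :=
      mul_le_mul_of_nonneg_right hm3 (by positivity)
    have h4 : (N : ℝ) / 2 < 2 * (N / Z) * (B + 1) := by linarith
    have h5 : 2 * ((N : ℝ) / Z) * (B + 1) = N * (2 * (B + 1) / Z) := by ring
    rw [h5] at h4
    have h6 : (N : ℝ) / 2 = N * (1 / 2) := by ring
    rw [h6] at h4
    have h7 : 1 / 2 < 2 * ((B : ℝ) + 1) / Z := lt_of_mul_lt_mul_left h4 hNpos.le
    rw [lt_div_iff₀ hZpos] at h7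
    linarith
  have hZbig : 256 ≤ Z := by linarith
  have hB2 : 2 ≤ B := by
    have : (2 : ℝ) ≤ B := by linarith
    exact_mod_cast this
  obtain ⟨b, hb⟩ : ∃ b, B = b + 1 := ⟨B - 1, by omega⟩
  have hbr : (B : ℝ) = b + 1 := by rw [hb]; push_cast; ring
  have hmB : m ≤ b + 1 := by
    have h1 : (m : ℝ) ≤ n := by
      refine hm4.trans ?_
      rw [div_le_iff₀ (by positivity)]
      nlinarith
    have h2 : (m : ℝ) ≤ B := by linarith
    have h3 : m ≤ B := by exact_mod_cast h2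
    omega
  refine ⟨b, by omega, ?_, ?_⟩
  · have : c0 / 8 * XX K n = Z / 8 := by rw [hZ]; ring
    rw [this]
    have : (b : ℝ) = B - 1 := by linarith
    rw [this]
    linarith
  · have hdiv := Nat.div_add_mod (N - 1) m
    have hmod := Nat.mod_lt (N - 1) hmpos
    refine enforcer_crit n K b m ((N - 1) % m + 1) hK (by omega) (by omega) ?_ (by omega) ?_ ?_
    · rw [← hB] at hdiv
      rw [← hb, ← hN]
      omega
    · have h1 : ((2 * ((K + 1) * (b + 1)) : ℕ) : ℝ) ^ K ≤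
          2 * ((n / 2 : ℕ) : ℝ) * ((n / (2 * (K + 1)) - K : ℕ) : ℝ) ^ K := by
        have h2 : ((2 * ((K + 1) * (b + 1)) : ℕ) : ℝ) ≤ 2 * (K + 1) * Z := by
          push_cast
          rw [hbr] at hBup
          have : (0 : ℝ) ≤ 2 * (K + 1) := by positivity
          nlinarith
        have h3 : ((2 * ((K + 1) * (b + 1)) : ℕ) : ℝ) ^ K ≤ (2 * (K + 1) * Z) ^ K :=
          pow_le_pow_left₀ (Nat.cast_nonneg _) h2 K
        have h4 : (2 * ((K : ℝ) + 1) * Z) ^ K = (1 / (8 * (K + 1))) ^ K * (n : ℝ) ^ (K + 1) := by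
          rw [← XX_pow K n (by omega), ← mul_pow]
          congr 1
          rw [hZ, hc0]
          field_simp
          ring
        have h5 : ((n : ℝ) / (4 * (K + 1))) ^ K ≤ ((n / (2 * (K + 1)) - K : ℕ) : ℝ) ^ K :=
          pow_le_pow_left₀ (by positivity) hb2 K
        have h6 : 2 * ((n : ℝ) / 3) * ((n : ℝ) / (4 * (K + 1))) ^ K ≤
            2 * ((n / 2 : ℕ) : ℝ) * ((n / (2 * (K + 1)) - K : ℕ) : ℝ) ^ K :=
          mul_le_mul (by linarith) h5 (by positivity) (by positivity)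
        refine (h3.trans h4.le).trans (le_trans ?_ h6)
        have h7 : (1 / (8 * ((K : ℝ) + 1))) ^ K * (n : ℝ) ^ (K + 1) =
            (n : ℝ) * ((1 / 2) ^ K * ((n : ℝ) / (4 * (K + 1))) ^ K) := by
          rw [← mul_pow, pow_succ]
          have : (1 / 2 : ℝ) * (n / (4 * (K + 1))) = (1 / (8 * (K + 1))) * n := by
            field_simp; ring
          rw [this, mul_pow]
          ring
        rw [h7]
        have h8 : (1 / 2 : ℝ) ^ K ≤ 1 / 2 := by
          calc (1 / 2 : ℝ) ^ K ≤ (1 / 2 : ℝ) ^ 1 :=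
                pow_le_pow_of_le_one (by norm_num) (by norm_num) (by omega)
            _ = 1 / 2 := by norm_num
        have h9 : (0 : ℝ) ≤ ((n : ℝ) / (4 * (K + 1))) ^ K := by positivity
        have h10 : (1 / 2 : ℝ) ^ K * ((n : ℝ) / (4 * (K + 1))) ^ K ≤
            1 / 2 * ((n : ℝ) / (4 * (K + 1))) ^ K := mul_le_mul_of_nonneg_right h8 h9
        have h11 : (n : ℝ) * ((1 / 2 : ℝ) ^ K * ((n : ℝ) / (4 * (K + 1))) ^ K) ≤
            n * (1 / 2 * ((n : ℝ) / (4 * (K + 1))) ^ K) :=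
          mul_le_mul_of_nonneg_left h10 (by positivity)
        refine h11.trans ?_
        have h12 : 0 ≤ (n : ℝ) * ((n : ℝ) / (4 * (K + 1))) ^ K := by positivity
        nlinarith
      exact_mod_cast h1
    · left
      have h1 : (((N - 1) % m + 1 : ℕ) : ℝ) ≤ ((n / (2 * (K + 1)) - K : ℕ) : ℝ) := by
        have h2 : (((N - 1) % m + 1 : ℕ) : ℝ) ≤ m := by exact_mod_cast hmod
        linarith
      exact_mod_cast h1

theorem lower_minus (K : ℕ) (hK : 2 ≤ K) : ∃ c : ℝ, 0 < c ∧ ∀ᶠ n : ℕ in atTop,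
    ∀ b : ℕ, 1 ≤ b → (b : ℝ) ≤ c * XX (K + 1) n → EnforcerWins n (K + 1) b := by
  have hKr : (2 : ℝ) ≤ K := by exact_mod_cast hK
  set c0 : ℝ := 1 / (32 * (K + 1) ^ 2) with hc0
  have hc0pos : 0 < c0 := by positivity
  refine ⟨c0, hc0pos, ?_⟩
  filter_upwards [aux_bounds K, eventually_ge_atTop 16] with n hb hn b hb1 hbX
  obtain ⟨hh, hy⟩ := hb
  have hnr : (16 : ℝ) ≤ n := by exact_mod_cast hn
  set N := (edges n).card with hN
  have hN2 : (n : ℝ) ^ 2 ≤ 4 * (N : ℝ) := by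
    have := edges_ge n (by omega)
    have h : (n : ℝ) * n ≤ 4 * (N : ℝ) := by exact_mod_cast this
    rw [sq]; exact h
  have hN16 : (16 : ℝ) ≤ N := by nlinarith
  have hNnat : 16 ≤ N := by exact_mod_cast hN16
  have hdiv := Nat.div_add_mod (N - 1) (b + 1)
  have hmod := Nat.mod_lt (N - 1) (show 0 < b + 1 by omega)
  -- real quantities
  set u : ℝ := ((2 * ((K + 1) * (b + 1)) : ℕ) : ℝ) with hu
  set y0 : ℝ := (n : ℝ) / (4 * (K + 1)) with hy0
  have hy0pos : 0 < y0 := by rw [hy0]; positivity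
  have hu0 : 0 ≤ u := Nat.cast_nonneg _
  have hb1r : (1 : ℝ) ≤ b := by exact_mod_cast hb1
  have hue : u = 2 * ((K + 1) * (b + 1)) := by rw [hu]; push_cast; ring
  have hub : u ≤ 4 * (K + 1) * (c0 * XX (K + 1) n) := by
    rw [hue]
    have : (0 : ℝ) ≤ K + 1 := by positivity
    nlinarith
  have hupow : u ^ (K + 1) ≤ n * (y0 / 2) ^ (K + 1) := by
    have h1 : u ^ (K + 1) ≤ (4 * (K + 1) * (c0 * XX (K + 1) n)) ^ (K + 1) :=
      pow_le_pow_left₀ hu0 hub _
    refine h1.trans (le_of_eq ?_)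
    have h2 : (4 * ((K : ℝ) + 1) * (c0 * XX (K + 1) n)) ^ (K + 1) =
        (1 / (8 * (K + 1))) ^ (K + 1) * (n : ℝ) ^ (K + 1 + 1) := by
      rw [← XX_pow (K + 1) n (by omega), ← mul_pow]
      congr 1
      rw [hc0]
      field_simp
      ring
    rw [h2, pow_succ (n : ℝ) (K + 1)]
    have h3 : y0 / 2 = (1 / (8 * (K + 1))) * n := by rw [hy0]; field_simp; ring
    rw [h3, mul_pow]
    ring
  have hhalf : ∀ j : ℕ, (1 / 2 : ℝ) ^ (j + 1) ≤ 1 / 2 := by
    intro j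
    calc (1 / 2 : ℝ) ^ (j + 1) ≤ (1 / 2 : ℝ) ^ 1 :=
          pow_le_pow_of_le_one (by norm_num) (by norm_num) (by omega)
      _ = 1 / 2 := by norm_num
  have hy0h : (y0 / 2) ^ (K + 1) ≤ 1 / 8 * y0 ^ (K + 1) := by
    have h1 : (y0 / 2) ^ (K + 1) = (1 / 2 : ℝ) ^ (K + 1) * y0 ^ (K + 1) := by
      rw [← mul_pow]; congr 1; ring
    have h2 : (1 / 2 : ℝ) ^ (K + 1) ≤ 1 / 8 := by
      calc (1 / 2 : ℝ) ^ (K + 1) ≤ (1 / 2 : ℝ) ^ 3 :=
            pow_le_pow_of_le_one (by norm_num) (by norm_num) (by omega)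
        _ = 1 / 8 := by norm_num
    rw [h1]
    exact mul_le_mul_of_nonneg_right h2 (by positivity)
  refine enforcer_crit n K b ((N - 1) / (b + 1)) ((N - 1) % (b + 1) + 1) hK (by omega) (by omega)
    ?_ (by omega) ?_ (Or.inr ?_)
  · rw [← hN]
    have : (N - 1) / (b + 1) * (b + 1) = (b + 1) * ((N - 1) / (b + 1)) := Nat.mul_comm _ _
    omega
  · have h1 : u ^ K ≤ 2 * ((n / 2 : ℕ) : ℝ) * ((n / (2 * (K + 1)) - K : ℕ) : ℝ) ^ K := by
      have h5 : y0 ^ K ≤ ((n / (2 * (K + 1)) - K : ℕ) : ℝ) ^ K :=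
        pow_le_pow_left₀ hy0pos.le hy K
      have h6 : 2 * ((n : ℝ) / 3) * y0 ^ K ≤
          2 * ((n / 2 : ℕ) : ℝ) * ((n / (2 * (K + 1)) - K : ℕ) : ℝ) ^ K :=
        mul_le_mul (by linarith) h5 (by positivity) (by positivity)
      refine le_trans ?_ h6
      rcases le_or_gt u y0 with h | h
      · have h7 : u ^ K ≤ y0 ^ K := pow_le_pow_left₀ hu0 h K
        have h8 : 0 ≤ y0 ^ K := by positivity
        nlinarith
      · have h7 : u ^ (K + 1) ≤ n * (1 / 8 * y0 ^ (K + 1)) :=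
          hupow.trans (mul_le_mul_of_nonneg_left hy0h (by positivity))
        have h8 : u ^ K * y0 ≤ u ^ (K + 1) := by
          rw [pow_succ]
          exact mul_le_mul_of_nonneg_left h.le (by positivity)
        have h9 : u ^ K * y0 ≤ (n * (1 / 8) * y0 ^ K) * y0 := by
          calc u ^ K * y0 ≤ u ^ (K + 1) := h8
            _ ≤ n * (1 / 8 * y0 ^ (K + 1)) := h7
            _ = (n * (1 / 8) * y0 ^ K) * y0 := by ring
        have h10 := le_of_mul_le_mul_right h9 hy0pos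
        have h11 : 0 ≤ (n : ℝ) * y0 ^ K := by positivity
        nlinarith
    rw [hu] at h1
    exact_mod_cast h1
  · have h1 : (((N - 1) % (b + 1) + 1 : ℕ) : ℝ) * u ^ K ≤
        ((n / 2 : ℕ) : ℝ) * ((n / (2 * (K + 1)) - K : ℕ) : ℝ) ^ (K + 1) := by
      have h5 : y0 ^ (K + 1) ≤ ((n / (2 * (K + 1)) - K : ℕ) : ℝ) ^ (K + 1) :=
        pow_le_pow_left₀ hy0pos.le hy (K + 1)
      have h6 : ((n : ℝ) / 3) * y0 ^ (K + 1) ≤
          ((n / 2 : ℕ) : ℝ) * ((n / (2 * (K + 1)) - K : ℕ) : ℝ) ^ (K + 1) :=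
        mul_le_mul (by linarith) h5 (by positivity) (by positivity)
      refine le_trans ?_ h6
      have h7 : (((N - 1) % (b + 1) + 1 : ℕ) : ℝ) ≤ u := by
        have h8 : (((N - 1) % (b + 1) + 1 : ℕ) : ℝ) ≤ ((b + 1 : ℕ) : ℝ) := by
          exact_mod_cast hmod
        refine h8.trans ?_
        rw [hue]
        push_cast
        nlinarith
      have h8 : (((N - 1) % (b + 1) + 1 : ℕ) : ℝ) * u ^ K ≤ u ^ (K + 1) := by
        rw [pow_succ, mul_comm]
        exact mul_le_mul_of_nonneg_left h7 (by positivity)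
      have h9 : u ^ (K + 1) ≤ n * (1 / 8 * y0 ^ (K + 1)) :=
        hupow.trans (mul_le_mul_of_nonneg_left hy0h (by positivity))
      have h10 : 0 ≤ (n : ℝ) * y0 ^ (K + 1) := by positivity
      nlinarith
    rw [hu] at h1
    exact_mod_cast h1

theorem upper_plus (K : ℕ) (hK : 2 ≤ K) : ∀ᶠ n : ℕ in atTop,
    ∀ b : ℕ, 2 * XX K n ≤ b → ¬ EnforcerWins n (K + 1) b := by
  filter_upwards [XX_ge K (by omega) 4, eventually_ge_atTop 16] with n hX hn b hb
  have hnr : (16 : ℝ) ≤ n := by exact_mod_cast hn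
  set N := (edges n).card with hN
  have hN2 : (n : ℝ) ^ 2 ≤ 4 * (N : ℝ) := by
    have := edges_ge n (by omega)
    have h : (n : ℝ) * n ≤ 4 * (N : ℝ) := by exact_mod_cast this
    rw [sq]; exact h
  have hN16 : (16 : ℝ) ≤ N := by nlinarith
  have hNnat : 16 ≤ N := by exact_mod_cast hN16
  have hdiv := Nat.div_add_mod (N - 1) (b + 1)
  have hmod := Nat.mod_lt (N - 1) (show 0 < b + 1 by omega)
  have hXpos : 0 < XX K n := by linarith
  have hbpos : (0 : ℝ) < (b : ℝ) + 1 := by positivity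
  set a : ℝ := 2 * n / (b + 1) with ha
  have haX : a ≤ n / XX K n := by
    rw [ha, div_le_div_iff₀ hbpos hXpos]
    nlinarith
  have ha0 : 0 ≤ a := by rw [ha]; positivity
  have ha4 : a ≤ 1 / 4 := by
    refine haX.trans ?_
    rw [div_le_iff₀ hXpos]
    linarith
  refine avoider_crit n (K + 1) b ((N - 1) / (b + 1)) ((N - 1) % (b + 1) + 1) (by omega)
    (by omega) (by omega) ?_ (Or.inl ?_)
  · rw [← hN]
    have : (N - 1) / (b + 1) * (b + 1) = (b + 1) * ((N - 1) / (b + 1)) := Nat.mul_comm _ _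
    omega
  · obtain ⟨j, rfl⟩ : ∃ j, K = j + 2 := ⟨K - 2, by omega⟩
    have e1 : j + 2 + 1 - 2 = j + 1 := by omega
    rw [e1]
    simp only [LL, rds]
    have h1 := LL_le n b a ha (by linarith) j
    have h2 : a ^ (j + 2) * n ≤ 1 := by
      have h3 : a ^ (j + 2) ≤ (n / XX (j + 2) n) ^ (j + 2) := pow_le_pow_left₀ ha0 haX _
      have h4 : ((n : ℝ) / XX (j + 2) n) ^ (j + 2) = 1 / n := by
        rw [div_pow, XX_pow (j + 2) n (by omega), pow_succ (n : ℝ) (j + 2)]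
        field_simp
      rw [h4] at h3
      have h5 : a ^ (j + 2) * n ≤ 1 / n * n := mul_le_mul_of_nonneg_right h3 (by positivity)
      have h6 : (1 : ℝ) / n * n = 1 := by field_simp
      linarith
    have h3 : 2 * (LL b n j : ℝ) * n ≤ b + 1 := by
      have h4 : 2 * (LL b n j : ℝ) * n = (b + 1) * (a * LL b n j) := by
        rw [ha]; field_simp
      rw [h4]
      have h5 : a * (LL b n j : ℝ) ≤ a * ((n / 2) * a ^ (j + 1) + 2) :=
        mul_le_mul_of_nonneg_left h1 ha0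
      have h6 : a * (((n : ℝ) / 2) * a ^ (j + 1) + 2) = (a ^ (j + 2) * n) / 2 + 2 * a := by ring
      have h7 : a * (LL b n j : ℝ) ≤ 1 := by linarith
      calc ((b : ℝ) + 1) * (a * LL b n j) ≤ (b + 1) * 1 :=
            mul_le_mul_of_nonneg_left h7 hbpos.le
        _ = b + 1 := by ring
    have h4 : 2 * LL b n j * n ≤ b + 1 := by exact_mod_cast h3
    have h5 : (2 * LL b n j * n + b) / (b + 1) < 2 := by
      rw [Nat.div_lt_iff_lt_mul (by omega)]
      omega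
    omega

theorem upper_minus (K : ℕ) (hK : 2 ≤ K) : ∀ᶠ n : ℕ in atTop,
    ∃ b : ℕ, 1 ≤ b ∧ (b : ℝ) ≤ 9 * XX (K + 1) n ∧ ¬ EnforcerWins n (K + 1) b := by
  filter_upwards [XX_ge (K + 1) (by omega) 8, XX_le (K + 1) (by omega) 32,
    eventually_ge_atTop 16] with n hX hXle hn
  have hnr : (16 : ℝ) ≤ n := by exact_mod_cast hn
  set N := (edges n).card with hN
  have hN1 : 2 * (N : ℝ) ≤ (n : ℝ) ^ 2 := by
    have := edges_le n
    have h : 2 * (N : ℝ) ≤ (n : ℝ) * n := by exact_mod_cast this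
    rw [sq]; exact h
  have hN2 : (n : ℝ) ^ 2 ≤ 4 * (N : ℝ) := by
    have := edges_ge n (by omega)
    have h : (n : ℝ) * n ≤ 4 * (N : ℝ) := by exact_mod_cast this
    rw [sq]; exact h
  have hXpos : 0 < XX (K + 1) n := by linarith
  set Z : ℝ := 4 * XX (K + 1) n with hZ
  have hZpos : 0 < Z := by linarith
  have hZn : 32 * (n : ℝ) ≤ Z := by linarith
  have hNpos : (0 : ℝ) < N := by nlinarith
  have hNZ : 2 * Z ≤ N := by linarith
  set M := ⌊(N : ℝ) / Z⌋₊ with hM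
  have hNZ2 : 2 ≤ (N : ℝ) / Z := by rw [le_div_iff₀ hZpos]; linarith
  have hM1 : (M : ℝ) ≤ N / Z := Nat.floor_le (by positivity)
  have hM2 : (N : ℝ) / Z < M + 1 := Nat.lt_floor_add_one _
  have hMr : (1 : ℝ) ≤ M := by
    have h1 : (1 : ℝ) < M + 1 := by linarith
    have h2 : 0 < M := by
      have : (0 : ℝ) < M := by linarith
      exact_mod_cast this
    exact_mod_cast h2
  have hMpos : 0 < M := by exact_mod_cast (lt_of_lt_of_le one_pos hMr)
  have hMZ : (M : ℝ) * Z ≤ N := by rwa [le_div_iff₀ hZpos] at hM1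
  have hMhalf : (N : ℝ) / Z ≤ 2 * M := by linarith
  have hNMZ : (N : ℝ) ≤ 2 * M * Z := by rwa [div_le_iff₀ hZpos] at hMhalf
  -- b + 1
  set B := (N + (M - 1)) / M with hB
  have hdiv := Nat.div_add_mod (N + (M - 1)) M
  have hmod := Nat.mod_lt (N + (M - 1)) hMpos
  -- M * B = N + δ
  obtain ⟨δ, hδ1, hδ2⟩ : ∃ δ, M * B = N + δ ∧ δ < M := by
    refine ⟨M - 1 - (N + (M - 1)) % M, ?_, by omega⟩
    rw [hB]
    omega
  have hδr : (M : ℝ) * B = N + δ := by exact_mod_cast hδ1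
  have hδr2 : (δ : ℝ) < M := by exact_mod_cast hδ2
  have hδ0 : (0 : ℝ) ≤ δ := Nat.cast_nonneg _
  have hMr0 : (0 : ℝ) < M := by linarith
  have hBlow : Z ≤ B := by
    have : (M : ℝ) * Z ≤ M * B := by linarith
    exact le_of_mul_le_mul_left this hMr0
  have hBup : (B : ℝ) ≤ 2 * Z + 1 := by
    have : (M : ℝ) * B ≤ M * (2 * Z + 1) := by nlinarith
    exact le_of_mul_le_mul_left this hMr0
  have hMn : (M : ℝ) ≤ n := by
    have h1 : (M : ℝ) * (32 * n) ≤ M * Z := mul_le_mul_of_nonneg_left hZn hMr0.le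
    have h2 : (M : ℝ) * (32 * n) ≤ (n : ℝ) ^ 2 := by linarith
    have h3 : (M : ℝ) * 32 * n ≤ n * n := by nlinarith
    have h4 := le_of_mul_le_mul_right h3 (by linarith : (0 : ℝ) < n)
    linarith
  have hB2 : 2 ≤ B := by
    have : (2 : ℝ) ≤ B := by linarith
    exact_mod_cast this
  obtain ⟨b, hb⟩ : ∃ b, B = b + 1 := ⟨B - 1, by omega⟩
  have hbr : (B : ℝ) = b + 1 := by rw [hb]; push_cast; ring
  have hδB : 2 * δ + 2 ≤ B := by
    have h1 : (2 : ℝ) * δ + 2 ≤ B := by linarith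
    exact_mod_cast h1
  obtain ⟨M', hM'⟩ : ∃ M', M = M' + 1 := ⟨M - 1, by omega⟩
  refine ⟨b, by omega, ?_, ?_⟩
  · have : (b : ℝ) = B - 1 := by linarith
    rw [this]
    linarith
  · refine avoider_crit n (K + 1) b M' (b + 1 - δ) (by omega) (by omega) (by omega) ?_
      (Or.inr ?_)
    · rw [← hN]
      rw [hM', hb] at hδ1
      have h1 : (M' + 1) * (b + 1) = M' * (b + 1) + (b + 1) := by ring
      omega
    · have e1 : K + 1 - 2 = K - 1 := by omega
      rw [e1]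
      have hbpos : (0 : ℝ) < (b : ℝ) + 1 := by positivity
      set a : ℝ := 2 * n / (b + 1) with ha
      have ha0 : 0 ≤ a := by rw [ha]; positivity
      have haB : (b : ℝ) + 1 ≥ Z := by rw [← hbr]; exact hBlow
      have ha2 : a ≤ 1 / 2 := by
        rw [ha, div_le_iff₀ hbpos]
        linarith
      have h1 := LL_le n b a ha ha2 (K - 1)
      have e2 : K - 1 + 1 = K := by omega
      rw [e2] at h1
      -- n^2 a^K ≤ (b+1)/4
      have h2 : (n : ℝ) ^ 2 * a ^ K ≤ (b + 1) / 4 := by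
        have h3 : (n : ℝ) ^ 2 * a ^ K = (n : ℝ) ^ 2 * (2 * n) ^ K / (b + 1) ^ K := by
          rw [ha, div_pow]; ring
        rw [h3, div_le_iff₀ (by positivity)]
        have h4 : Z ^ (K + 1) ≤ ((b : ℝ) + 1) ^ (K + 1) := pow_le_pow_left₀ hZpos.le haB _
        have h5 : Z ^ (K + 1) = 4 ^ (K + 1) * (n : ℝ) ^ (K + 1 + 1) := by
          rw [hZ, mul_pow, XX_pow (K + 1) n (by omega)]
        have h6 : (n : ℝ) ^ 2 * (2 * n) ^ K = 2 ^ K * (n : ℝ) ^ (K + 1 + 1) := by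
          rw [mul_pow]; ring
        rw [h6]
        have h7 : ((b : ℝ) + 1) / 4 * (b + 1) ^ K = (b + 1) ^ (K + 1) / 4 := by ring
        rw [h7]
        have h8 : (2 : ℝ) ^ K ≤ 4 ^ K := pow_le_pow_left₀ (by norm_num) (by norm_num) _
        have h9 : (4 : ℝ) ^ (K + 1) = 4 * 4 ^ K := by ring
        have h10 : 0 ≤ (n : ℝ) ^ (K + 1 + 1) := by positivity
        rw [h5, h9] at h4
        nlinarith
      have h3 : 2 * (LL b n (K - 1) : ℝ) * n < ((b + 1 - δ : ℕ) : ℝ) := by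
        have h4 : 2 * (LL b n (K - 1) : ℝ) * n ≤ 2 * ((n / 2) * a ^ K + 2) * n := by
          have : (0 : ℝ) ≤ n := by positivity
          nlinarith
        have h5 : 2 * (((n : ℝ) / 2) * a ^ K + 2) * n = (n : ℝ) ^ 2 * a ^ K + 4 * n := by ring
        have h6 : ((b + 1 - δ : ℕ) : ℝ) = b + 1 - δ := by
          rw [Nat.cast_sub (by omega)]; push_cast; ring
        rw [h6]
        have h7 : (2 : ℝ) * δ + 2 ≤ b + 1 := by
          rw [← hbr]; exact_mod_cast hδB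
        linarith
      exact_mod_cast h3

/-- the upper threshold -/
theorem fPlus_theta (k : ℕ) (hk : 3 ≤ k) :
    (fun n : ℕ => (fPlus n k : ℝ)) =Θ[atTop] fun n : ℕ => (n : ℝ) ^ ((k : ℝ) / ((k : ℝ) - 1)) := by
  obtain ⟨K, rfl⟩ : ∃ K, k = K + 1 := ⟨k - 1, by omega⟩
  have hK : 2 ≤ K := by omega
  have e : ∀ n : ℕ, (n : ℝ) ^ (((K + 1 : ℕ) : ℝ) / (((K + 1 : ℕ) : ℝ) - 1)) = XX K n := by
    intro n
    unfold XX
    congr 1
    push_cast
    congr 1
    ring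
  simp_rw [e]
  obtain ⟨c, hc, hlow⟩ := lower_plus K hK
  constructor
  · apply IsBigO.of_bound 3
    filter_upwards [upper_plus K hK, XX_ge K (by omega) 1, eventually_ge_atTop 1] with n h1 h2 h3
    rw [Real.norm_of_nonneg (Nat.cast_nonneg _), Real.norm_of_nonneg (XX_nonneg K n)]
    have h4 : fPlus n (K + 1) ≤ ⌈2 * XX K n⌉₊ := by
      apply Nat.sInf_le
      intro b _ hb
      apply h1
      exact (Nat.le_ceil _).trans (by exact_mod_cast hb.le)
    have h5 : (⌈2 * XX K n⌉₊ : ℝ) < 2 * XX K n + 1 :=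
      Nat.ceil_lt_add_one (by have := XX_nonneg K n; linarith)
    have h6 : (fPlus n (K + 1) : ℝ) ≤ ⌈2 * XX K n⌉₊ := by exact_mod_cast h4
    have h7 : (1 : ℝ) ≤ n := by exact_mod_cast h3
    linarith
  · apply IsBigO.of_bound (1 / c)
    filter_upwards [hlow, upper_plus K hK] with n h1 h2
    rw [Real.norm_of_nonneg (Nat.cast_nonneg _), Real.norm_of_nonneg (XX_nonneg K n)]
    obtain ⟨b, hb1, hb2, hb3⟩ := h1
    have hne : {m : ℕ | ∀ b : ℕ, 1 ≤ b → m < b → ¬ EnforcerWins n (K + 1) b}.Nonempty := by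
      refine ⟨⌈2 * XX K n⌉₊, fun b _ hb => h2 b ?_⟩
      exact (Nat.le_ceil _).trans (by exact_mod_cast hb.le)
    have h3 : fPlus n (K + 1) ∈ {m : ℕ | ∀ b : ℕ, 1 ≤ b → m < b → ¬ EnforcerWins n (K + 1) b} :=
      Nat.sInf_mem hne
    have h4 : b ≤ fPlus n (K + 1) := by
      by_contra hcon
      push Not at hcon
      exact h3 b hb1 hcon hb3
    have h5 : (b : ℝ) ≤ fPlus n (K + 1) := by exact_mod_cast h4
    rw [one_div, ← div_eq_inv_mul, le_div_iff₀ hc]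
    linarith

/-- the lower threshold -/
theorem fMinus_theta (k : ℕ) (hk : 3 ≤ k) :
    (fun n : ℕ => (fMinus n k : ℝ)) =Θ[atTop] fun n : ℕ => (n : ℝ) ^ (((k : ℝ) + 1) / k) := by
  obtain ⟨K, rfl⟩ : ∃ K, k = K + 1 := ⟨k - 1, by omega⟩
  have hK : 2 ≤ K := by omega
  have e : ∀ n : ℕ, (n : ℝ) ^ ((((K + 1 : ℕ) : ℝ) + 1) / ((K + 1 : ℕ) : ℝ)) = XX (K + 1) n := by
    intro n
    rfl
  simp_rw [e]
  obtain ⟨c, hc, hlow⟩ := lower_minus K hK
  have key : ∀ n : ℕ, ∀ b : ℕ, 1 ≤ b → ¬ EnforcerWins n (K + 1) b →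
      ∀ m ∈ {m : ℕ | ∀ b : ℕ, 1 ≤ b → b ≤ m → EnforcerWins n (K + 1) b}, m ≤ b := by
    intro n b hb1 hb2 m hm
    by_contra hcon
    push Not at hcon
    exact hb2 (hm b hb1 hcon.le)
  constructor
  · apply IsBigO.of_bound 9
    filter_upwards [upper_minus K hK] with n h1
    rw [Real.norm_of_nonneg (Nat.cast_nonneg _), Real.norm_of_nonneg (XX_nonneg (K + 1) n)]
    obtain ⟨b, hb1, hb2, hb3⟩ := h1
    have h4 : fMinus n (K + 1) ≤ b := by
      apply csSup_le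
      · exact ⟨0, fun b hb1 hb2 => by omega⟩
      · exact key n b hb1 hb3
    have h5 : (fMinus n (K + 1) : ℝ) ≤ b := by exact_mod_cast h4
    linarith
  · apply IsBigO.of_bound (2 / c)
    filter_upwards [hlow, upper_minus K hK, XX_ge (K + 1) (by omega) (2 / c),
      eventually_ge_atTop 1] with n h1 h2 h3 h4
    rw [Real.norm_of_nonneg (Nat.cast_nonneg _), Real.norm_of_nonneg (XX_nonneg (K + 1) n)]
    obtain ⟨b, hb1, hb2, hb3⟩ := h2
    have hbdd : BddAbove {m : ℕ | ∀ b : ℕ, 1 ≤ b → b ≤ m → EnforcerWins n (K + 1) b} :=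
      ⟨b, key n b hb1 hb3⟩
    have h5 : ⌊c * XX (K + 1) n⌋₊ ≤ fMinus n (K + 1) := by
      apply le_csSup hbdd
      intro b' hb' hb''
      apply h1 b' hb'
      have h6 : (b' : ℝ) ≤ ⌊c * XX (K + 1) n⌋₊ := by exact_mod_cast hb''
      exact h6.trans (Nat.floor_le (mul_nonneg hc.le (XX_nonneg _ _)))
    have h6 : c * XX (K + 1) n < ⌊c * XX (K + 1) n⌋₊ + 1 := Nat.lt_floor_add_one _
    have h7 : (⌊c * XX (K + 1) n⌋₊ : ℝ) ≤ fMinus n (K + 1) := by exact_mod_cast h5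
    have h8 : (1 : ℝ) ≤ n := by exact_mod_cast h4
    have h9 : 2 ≤ c * XX (K + 1) n := by
      have h10 : 2 / c * (n : ℝ) * c ≤ XX (K + 1) n * c := mul_le_mul_of_nonneg_right h3 hc.le
      have h11 : 2 / c * (n : ℝ) * c = 2 * n := by field_simp
      rw [h11] at h10
      linarith
    have h10 : c * XX (K + 1) n / 2 ≤ fMinus n (K + 1) := by linarith
    have h11 : 2 / c * (c * XX (K + 1) n / 2) ≤ 2 / c * (fMinus n (K + 1) : ℝ) :=
      mul_le_mul_of_nonneg_left h10 (by positivity)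
    have h12 : 2 / c * (c * XX (K + 1) n / 2) = XX (K + 1) n := by field_simp
    linarith

end Pool.Agent.X69.Star
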